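import Pool.Agent.Q189.MV.DShD

/-!
# The double shuffle relations are complete if and only if they are complete at one integer

`H0 p`: the combinations of words of length `p` in `ℚ + x ℚ⟨x, y⟩ y`; `RDS p`: the span of the regularized double shuffle
elements of weight `p`; `Z`: the map to the real numbers; `Linear p`: every element of `H0 p` in the kernel of `Z` is in `RDS p`
(the problem in weight `p`). `formal p` is the dimension of `H0 p` modulo `RDS p`, `Zsp p` the span of the multiple zeta values of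
weight `p`.

For an integer `n ≥ 2` let `V n N` be the span of the products `Li_s(1 - 1/n) Li_t(1/n)` with `|s| + |t| = N`. The shuffle
products of the two factors, the composition of the paths from `0` to `1/n` and from `1/n` to `1` and the double shuffle
relations show that `dim V n N ≤ ∑_{k ≤ N} 2^k formal (N - k)`.

* The problem has a positive answer in all weights `p ≤ N` if and only if this is an equality for ONE `n ≥ 2`: if the double
  shuffle relations (with path composition) give all relations between the products of weight `N` at one integer, they give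
  all relations between multiple zeta values of weight at most `N`.
* At almost all integers `n`, the number of relations between the products of weight `M ≤ N` which do not follow is
  `∑_{k ≤ M} 2^k missing (M - k)`, where `missing p` is the number of relations of weight `p` between multiple zeta values which
  do not follow from the double shuffle relations.
* The problem has a positive answer in weight `p + 1` if and only if `dim V n (p + 1) = formal (p + 1) + 2 dim V n p` at
  almost all integers `n`.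

No hypothesis is used; the theorem of Ihara, Kaneko and Zagier (`RDS p` is in the kernel of `Z`) is proved in
`Pool.Agent.Q189.MV.DSh`.
-/

set_option autoImplicit false

open Module

namespace Pool.Agent.Q138.AI.R154526

open Pool.Agent.Q187.ZD.DS (W Z H0 RDS Linear)

/-- the truncated sums `∑_{N ≥ n_1 > … > n_k ≥ 1} 1 / (n_1^{s_1} ⋯ n_k^{s_k})` -/
noncomputable def truncated : List ℕ → ℕ → ℝ
  | [], _ => 1
  | a :: s, N => ∑ n ∈ Finset.range N, 1 / ((n : ℝ) + 1) ^ a * truncated s n

/-- the multiple polylogarithm `Li_s(x) = ∑_{n_1 > … > n_k ≥ 1} x^{n_1} / (n_1^{s_1} ⋯ n_k^{s_k})` -/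
noncomputable def Li : List ℕ → ℝ → ℝ
  | [], _ => 1
  | a :: s, x => ∑' n : ℕ, x ^ (n + 1) / ((n : ℝ) + 1) ^ a * truncated s n

/-- `V n N`: the span of the products `Li_s(1 - 1/n) Li_t(1/n)` with `|s| + |t| = N` -/
noncomputable def V (n N : ℕ) : Submodule ℚ ℝ :=
  Submodule.span ℚ {r | ∃ s t : List ℕ, (∀ a ∈ s, 1 ≤ a) ∧ (∀ a ∈ t, 1 ≤ a) ∧ s.sum + t.sum = N ∧
    r = Li s (1 - 1 / n) * Li t (1 / n)}

/-- the span of the multiple zeta values of weight `p` -/
noncomputable def Zsp (p : ℕ) : Submodule ℚ ℝ := (H0 p).map Z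

/-- the dimension of `H0 p` modulo the double shuffle elements of weight `p` -/
noncomputable def formal (p : ℕ) : ℕ := finrank ℚ ((H0 p).map (RDS p).mkQ)

/-- the number of independent relations of weight `p` which are not combinations of double shuffle elements -/
noncomputable def missing (p : ℕ) : ℕ := formal p - finrank ℚ (Zsp p)

theorem result :
    (∀ p, (∀ f ∈ RDS p, Z f = 0) ∧ (missing p = 0 ↔ Linear p)) ∧
    (∀ n N : ℕ, 2 ≤ n → Zsp N ≤ V n N ∧ finrank ℚ (V n N) ≤ ∑ k ∈ Finset.range (N + 1), 2 ^ k * formal (N - k)) ∧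
    (∀ N : ℕ, (∀ p ≤ N, Linear p) ↔
      ∃ n : ℕ, 2 ≤ n ∧ finrank ℚ (V n N) = ∑ k ∈ Finset.range (N + 1), 2 ^ k * formal (N - k)) ∧
    (∀ N : ℕ, ∃ C c : ℝ, 0 < c ∧ ∀ T : ℕ, 1 ≤ T →
      (({n : ℕ | 3 ≤ n ∧ n ≤ T ∧ ¬ ∀ M ≤ N, finrank ℚ (V n M) + ∑ k ∈ Finset.range (M + 1), 2 ^ k * missing (M - k) =
        ∑ k ∈ Finset.range (M + 1), 2 ^ k * formal (M - k)}.ncard : ℕ) : ℝ) ≤ C * (T : ℝ) ^ (1 - c)) ∧
    (∀ p : ℕ, Linear (p + 1) ↔ ∃ C c : ℝ, 0 < c ∧ ∀ T : ℕ, 1 ≤ T →
      (({n : ℕ | 3 ≤ n ∧ n ≤ T ∧ ¬ finrank ℚ (V n (p + 1)) = formal (p + 1) + 2 * finrank ℚ (V n p)}.ncard : ℕ) : ℝ) ≤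
        C * (T : ℝ) ^ (1 - c)) := by
  have ht : truncated = Pool.Agent.Q189.MV.trunc := by
    funext s
    induction s with
    | nil => rfl
    | cons a s ih =>
      funext N
      show ∑ n ∈ Finset.range N, 1 / ((n : ℝ) + 1) ^ a * truncated s n =
        ∑ n ∈ Finset.range N, 1 / ((n : ℝ) + 1) ^ a * Pool.Agent.Q189.MV.trunc s n
      rw [ih]
  have hL : Li = Pool.Agent.Q189.MV.Lis := by
    funext s x
    rcases s with _ | ⟨a, s⟩
    · rfl
    · show ∑' n : ℕ, x ^ (n + 1) / ((n : ℝ) + 1) ^ a * truncated s n =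
        ∑' n : ℕ, x ^ (n + 1) / ((n : ℝ) + 1) ^ a * Pool.Agent.Q189.MV.trunc s n
      rw [ht]
  have hV : V = fun n N : ℕ => Pool.Agent.Q189.MV.Spc (1 / n) N := by
    funext n N
    unfold V Pool.Agent.Q189.MV.Spc
    rw [hL]
  have hZ : Zsp = Pool.Agent.H447R2.MZ.Zs := funext Pool.Agent.Q189.MV.DSh.map_Z
  have hF : formal = Pool.Agent.Q189.MV.DSh.formal := rfl
  have hm : missing = Pool.Agent.Q189.MV.DSh.missing := by
    funext p
    unfold missing Pool.Agent.Q189.MV.DSh.missing
    rw [hZ, hF]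
  rw [hV, hm, hF, hZ]
  beta_reduce
  refine ⟨fun p => ⟨fun f hf => Pool.Agent.Q189.MV.DSh.Z_RDS hf, Pool.Agent.Q189.MV.DSh.missing_zero p⟩, fun n N hn => ?_,
    Pool.Agent.Q189.MV.DSh.one_crit, Pool.Agent.Q189.MV.DSh.few_rel, Pool.Agent.Q189.MV.DSh.weight_crit⟩
  obtain ⟨h1, h2⟩ := Pool.Agent.Q189.MV.inv_pos_lt hn
  rw [Pool.Agent.Q189.MV.Spc_eq h1 h2]
  exact ⟨Pool.Agent.Q189.MV.Zs_le_VN h1 h2 N, (Pool.Agent.Q189.MV.finrank_VN_le h1 h2 N).trans
    (Finset.sum_le_sum fun k _ => Nat.mul_le_mul_left _ (Pool.Agent.Q189.MV.DSh.finrank_le_formal _).1)⟩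

end Pool.Agent.Q138.AI.R154526
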