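import Pool.Agent.Q189.MV.Hof3

/-!
# Hoffman's conjecture weight by weight, and values of multiple polylogarithms at `1/n` and `1 - 1/n`

Let `Li_s(x) = ∑_{n_1 > … > n_k ≥ 1} x^{n_1} / (n_1^{s_1} ⋯ n_k^{s_k})`, weight `|s| = s_1 + ⋯ + s_k` (all `s_i ≥ 1`), and let `V_N(n)` be
the `ℚ`-span of the products `Li_s(1 - 1/n) Li_t(1/n)` with `|s| + |t| = N`.

* For EVERY set `F` of admissible indices: if for each `k ≤ N` the multiple zeta values `ζ(s)`, `s ∈ F`, `|s| = k`, are linearly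
  independent over `ℚ`, then for all but `C T^(1-c)` of the integers `3 ≤ n ≤ T` the numbers
  `log(1/n)^a Li_t(1/n) Li_s(1 - 1/n)`, `a ≥ 0`, `t` any index, `s ∈ F`, `a + |t| + |s| = N`, are linearly independent over `ℚ`.
* Let `F` be the set of the words in `2`, `3`, and assume Brown's theorem (the family `H_{k,k}` of the `ζ(s)`, `s ∈ F`, `|s| = k`,
  spans `Z_k`). Then for each `N` the following are equivalent: `H_{k,k}` is a basis of `Z_k` for all `k ≤ N`; for ONE `n ≥ 2`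
  the numbers above of weight `N` are linearly independent; for all but `C T^(1-c)` of the `n ≤ T` they are a basis of
  `V_N(n)`.
* So the conjecture holds for all weights if and only if for infinitely many weights `N` there is one `n ≥ 2` such that these
  explicit numbers of weight `N` are linearly independent.

The proof is as in `MP_c2d7b4_nt.BasisAtIntegers` (the case of inhomogeneous relations, where all multiple zeta values of
weight at most `N` are treated together); neither statement implies the other.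
-/

set_option autoImplicit false

open Module

namespace Pool.Agent.Q138.AI.R301213

/-- admissible indices -/
def Admissible (s : List ℕ) : Prop := (∀ a ∈ s, 1 ≤ a) ∧ ∀ a ∈ s.head?, 2 ≤ a

/-- words in `2` and `3` -/
def Word (s : List ℕ) : Prop := ∀ a ∈ s, a = 2 ∨ a = 3

/-- the multiple zeta value `ζ(s)` -/
noncomputable def zeta (s : List ℕ) : ℝ :=
  ∑' m : {m : Fin s.length → ℕ // StrictAnti m ∧ ∀ i, 0 < m i}, ∏ i, ((m.1 i : ℝ) ^ (s.get i))⁻¹

/-- the span of the multiple zeta values of weight `k` -/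
noncomputable def Z (k : ℕ) : Submodule ℚ ℝ := Submodule.span ℚ {x : ℝ | ∃ s, Admissible s ∧ s.sum = k ∧ x = zeta s}

/-- Hoffman's conjecture in weight `k`: the family `H_{k,k}` is a basis of `Z_k` -/
def IsBasis (k : ℕ) : Prop :=
  LinearIndependent ℚ (fun s : {s : List ℕ // Word s ∧ s.sum = k} => zeta s.1) ∧
    Submodule.span ℚ (Set.range fun s : {s : List ℕ // Word s ∧ s.sum = k} => zeta s.1) = Z k

/-- Brown's theorem: `H_{k,k}` spans `Z_k` -/
def Brown : Prop :=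
  ∀ k : ℕ, Submodule.span ℚ (Set.range fun s : {s : List ℕ // Word s ∧ s.sum = k} => zeta s.1) = Z k

/-- the truncated sums `∑_{N ≥ n_1 > … > n_k ≥ 1} 1 / (n_1^{s_1} ⋯ n_k^{s_k})` -/
noncomputable def trunc : List ℕ → ℕ → ℝ
  | [], _ => 1
  | a :: s, N => ∑ n ∈ Finset.range N, 1 / ((n : ℝ) + 1) ^ a * trunc s n

/-- the multiple polylogarithm `Li_s(x) = ∑_{n_1 > … > n_k ≥ 1} x^{n_1} / (n_1^{s_1} ⋯ n_k^{s_k})` -/
noncomputable def Li : List ℕ → ℝ → ℝ
  | [], _ => 1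
  | a :: s, x => ∑' n : ℕ, x ^ (n + 1) / ((n : ℝ) + 1) ^ a * trunc s n

/-- the triples `(a, t, s)`: `t` an index, `s ∈ F`, `a + |t| + |s| = N` -/
abbrev Index (F : List ℕ → Prop) (N : ℕ) : Type :=
  {p : ℕ × List ℕ × List ℕ // (∀ a ∈ p.2.1, 1 ≤ a) ∧ F p.2.2 ∧ p.1 + p.2.1.sum + p.2.2.sum = N}

/-- `log(1/n)^a Li_t(1/n) Li_s(1 - 1/n)` -/
noncomputable def value (n : ℕ) (p : ℕ × List ℕ × List ℕ) : ℝ :=
  Real.log (1 / n) ^ p.1 * Li p.2.1 (1 / n) * Li p.2.2 (1 - 1 / n)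

/-- the span of the products `Li_s(1 - 1/n) Li_t(1/n)` with `|s| + |t| = N` -/
noncomputable def V (n N : ℕ) : Submodule ℚ ℝ :=
  Submodule.span ℚ {r | ∃ s t : List ℕ, (∀ a ∈ s, 1 ≤ a) ∧ (∀ a ∈ t, 1 ≤ a) ∧ s.sum + t.sum = N ∧
    r = Li s (1 - 1 / n) * Li t (1 / n)}

/-- the family is a basis of `V_N(n)` -/
def BasisAt (n N : ℕ) : Prop :=
  LinearIndependent ℚ (fun p : Index Word N => value n p.1) ∧
    Submodule.span ℚ (Set.range fun p : Index Word N => value n p.1) = V n N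

/-- (1) families of multiple zeta values and families of values at almost all `n`; (2) given Brown's theorem: the criterion for the
weights up to `N` by one `n`, and by almost all `n`; (3) the criterion for all weights. -/
theorem result :
    (∀ F : List ℕ → Prop, (∀ s, F s → Admissible s) → ∀ N : ℕ,
      (∀ k ≤ N, LinearIndependent ℚ (fun s : {s : List ℕ // F s ∧ s.sum = k} => zeta s.1)) →
      ∃ C c : ℝ, 0 < c ∧ ∀ T : ℕ, 1 ≤ T → (({n : ℕ | 3 ≤ n ∧ n ≤ T ∧
        ¬ LinearIndependent ℚ (fun p : Index F N => value n p.1)}.ncard : ℕ) : ℝ) ≤ C * (T : ℝ) ^ (1 - c)) ∧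
    (Brown → ∀ N : ℕ,
      ((∀ k ≤ N, IsBasis k) ↔ ∃ n : ℕ, 2 ≤ n ∧ LinearIndependent ℚ (fun p : Index Word N => value n p.1)) ∧
      ((∀ k ≤ N, IsBasis k) ↔ ∃ C c : ℝ, 0 < c ∧ ∀ T : ℕ, 1 ≤ T →
          (({n : ℕ | 3 ≤ n ∧ n ≤ T ∧ ¬ BasisAt n N}.ncard : ℕ) : ℝ) ≤ C * (T : ℝ) ^ (1 - c))) ∧
    (Brown → ((∀ k, IsBasis k) ↔ ∀ N₀ : ℕ, ∃ N n : ℕ, N₀ ≤ N ∧ 2 ≤ n ∧
      LinearIndependent ℚ (fun p : Index Word N => value n p.1))) := by
  have hAdm : ∀ s, Admissible s ↔ Pool.Agent.H447R2.MZ.Adm s := by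
    intro s
    unfold Admissible Pool.Agent.H447R2.MZ.Adm
    refine and_congr_right fun _ => ?_
    constructor
    · intro h a t hs
      exact h a (by rw [hs]; rfl)
    · intro h a ha
      rcases s with _ | ⟨b, t⟩
      · simp at ha
      · simp at ha
        subst ha
        exact h _ _ rfl
  have hWord : ∀ s, Word s → Pool.Agent.H447R2.MZ.Adm s := by
    intro s hs
    refine ⟨fun a ha => ?_, fun a t hst => ?_⟩
    · rcases hs a ha with h | h <;> omega
    · rcases hs a (by rw [hst]; simp) with h | h <;> omega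
  have hz : ∀ s, Pool.Agent.H447R2.MZ.Adm s → zeta s = Pool.Agent.H447R2.MZ.val s := fun s hs =>
    Pool.Agent.Q189.MV.val_tsum s hs
  have hZ : ∀ k, Z k = Pool.Agent.H447R2.MZ.Zs k := by
    intro k
    rw [Pool.Agent.H447R2.MZ.Zs_eq]
    unfold Z
    congr 1
    ext r
    constructor
    · rintro ⟨s, h1, h2, rfl⟩
      exact ⟨s, (hAdm s).1 h1, h2, hz s ((hAdm s).1 h1)⟩
    · rintro ⟨s, h1, h2, rfl⟩
      exact ⟨s, (hAdm s).2 h1, h2, (hz s h1).symm⟩
  have ht : trunc = Pool.Agent.Q189.MV.trunc := by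
    funext s
    induction s with
    | nil => rfl
    | cons a s ih =>
      funext N
      show ∑ n ∈ Finset.range N, 1 / ((n : ℝ) + 1) ^ a * trunc s n =
        ∑ n ∈ Finset.range N, 1 / ((n : ℝ) + 1) ^ a * Pool.Agent.Q189.MV.trunc s n
      rw [ih]
  have hL : Li = Pool.Agent.Q189.MV.Lis := by
    funext s x
    rcases s with _ | ⟨a, s⟩
    · rfl
    · show ∑' n : ℕ, x ^ (n + 1) / ((n : ℝ) + 1) ^ a * trunc s n =
        ∑' n : ℕ, x ^ (n + 1) / ((n : ℝ) + 1) ^ a * Pool.Agent.Q189.MV.trunc s n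
      rw [ht]
  have hv : ∀ (n : ℕ), value n = Pool.Agent.Q189.MV.vl (1 / n) := by
    intro n
    funext p
    unfold value Pool.Agent.Q189.MV.vl
    rw [hL]
  have hV : ∀ n N : ℕ, V n N = Pool.Agent.Q189.MV.Spc (1 / n) N := by
    intro n N
    unfold V Pool.Agent.Q189.MV.Spc
    rw [hL]
  have hR : ∀ N m k : ℕ, (fun m k => m + k = N) m k → m + k ≤ N := fun N m k h => le_of_eq h
  have hli : ∀ (F : List ℕ → Prop), (∀ s, F s → Pool.Agent.H447R2.MZ.Adm s) → ∀ (N n : ℕ), 2 ≤ n →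
      (LinearIndependent ℚ (fun p : Index F N => value n p.1) ↔
        LinearIndependent ℚ fun p : Pool.Agent.Q189.MV.Fi N F (fun m k => m + k = N) =>
          Pool.Agent.Q189.MV.pp (1 / n) p.1.1 * Pool.Agent.Q189.MV.V (Pool.Agent.Q189.MV.wd p.1.2) (1 - 1 / n)) := by
    intro F hF N n hn
    obtain ⟨e1, e2⟩ := Pool.Agent.Q189.MV.inv_pos_lt hn
    rw [← Pool.Agent.Q189.MV.li_iff e1 e2 hF (hR N), hv]
  have hzli : ∀ (F : List ℕ → Prop), (∀ s, F s → Pool.Agent.H447R2.MZ.Adm s) → ∀ k : ℕ,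
      (LinearIndependent ℚ (fun s : {s : List ℕ // F s ∧ s.sum = k} => zeta s.1) ↔
        LinearIndependent ℚ fun s : {s : List ℕ // F s ∧ s.sum = k} => Pool.Agent.H447R2.MZ.val s.1) := by
    intro F hF k
    have h1 : (fun s : {s : List ℕ // F s ∧ s.sum = k} => zeta s.1) =
        fun s : {s : List ℕ // F s ∧ s.sum = k} => Pool.Agent.H447R2.MZ.val s.1 := funext fun s => hz _ (hF _ s.2.1)
    rw [h1]
  have hBr : Brown → ∀ k, Pool.Agent.H447R2.MZ.Zs k ≤
      Submodule.span ℚ (Set.range fun s : {s : List ℕ // Word s ∧ s.sum = k} => Pool.Agent.H447R2.MZ.val s.1) := by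
    intro hB k
    have h1 := (hB k).ge
    rw [hZ] at h1
    have h2 : (fun s : {s : List ℕ // Word s ∧ s.sum = k} => zeta s.1) =
        fun s : {s : List ℕ // Word s ∧ s.sum = k} => Pool.Agent.H447R2.MZ.val s.1 := funext fun s => hz _ (hWord _ s.2.1)
    rw [h2] at h1
    exact h1
  -- the basis at good integers
  have hbas : Brown → ∀ N n : ℕ, 3 ≤ n → Pool.Agent.Q189.MV.Ind (1 / n) N → (∀ k ≤ N, IsBasis k) → BasisAt n N := by
    intro hB N n hn hi h
    obtain ⟨e1, e2⟩ := Pool.Agent.Q189.MV.inv_pos_lt (n := n) (by omega)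
    obtain ⟨g1, g2⟩ := Pool.Agent.Q189.MV.basis_N hWord (hBr hB) e1 e2 hi fun k hk => (hzli Word hWord k).1 (h k hk).1
    refine ⟨(hli Word hWord N n (by omega)).2 g1, ?_⟩
    rw [hV, Pool.Agent.Q189.MV.Spc_eq e1 e2, ← g2, hv]
    congr 1
    exact Pool.Agent.Q189.MV.range_eq e1 e2 hWord (hR N)
  have hone : Brown → ∀ N n : ℕ, 2 ≤ n → LinearIndependent ℚ (fun p : Index Word N => value n p.1) → ∀ k ≤ N, IsBasis k := by
    intro hB N n hn h k hk
    obtain ⟨e1, e2⟩ := Pool.Agent.Q189.MV.inv_pos_lt hn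
    rw [hli Word hWord N n hn] at h
    exact ⟨(hzli Word hWord k).2 (Pool.Agent.Q189.MV.li_of_N hWord (hBr hB) e1 e2 h k hk), hB k⟩
  refine ⟨fun F hF N h => ?_, fun hB N => ⟨⟨fun h => ?_, ?_⟩, ⟨fun h => ?_, fun h => ?_⟩⟩, fun hB => ⟨fun h N₀ => ?_, fun h k => ?_⟩⟩
  · have hF' : ∀ s, F s → Pool.Agent.H447R2.MZ.Adm s := fun s hs => (hAdm s).1 (hF s hs)
    refine Pool.Agent.Q189.MV.few_of (N := N) fun n hn hi => ?_
    obtain ⟨e1, e2⟩ := Pool.Agent.Q189.MV.inv_pos_lt (n := n) (by omega)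
    rw [hli F hF' N n (by omega)]
    refine Pool.Agent.Q189.MV.li_family e1 e2 hi hF' (hR N) fun m => ?_
    let e : {s : List ℕ // F s ∧ m + s.sum = N} → {s : List ℕ // F s ∧ s.sum = N - m} := fun s => ⟨s.1, s.2.1, by have := s.2.2; omega⟩
    exact ((hzli F hF' (N - m)).1 (h (N - m) (by omega))).comp e fun s t hst =>
      Subtype.ext (by have h := congrArg Subtype.val hst; exact h)
  · obtain ⟨n, hn, hi⟩ := Pool.Agent.Q189.MV.exists_good N
    exact ⟨n, by omega, (hbas hB N n hn hi h).1⟩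
  · rintro ⟨n, hn, h⟩
    exact hone hB N n hn h
  · exact Pool.Agent.Q189.MV.few_of (N := N) fun n hn hi => hbas hB N n hn hi h
  · obtain ⟨C, c, hc, hf⟩ := h
    obtain ⟨n, hn, hn'⟩ := Pool.Agent.Q189.Z3.exists_of_few hc hf
    exact hone hB N n (by omega) (not_not.1 hn').1
  · obtain ⟨n, hn, hi⟩ := Pool.Agent.Q189.MV.exists_good N₀
    exact ⟨N₀, n, le_rfl, by omega, (hbas hB N₀ n hn hi fun k _ => h k).1⟩
  · obtain ⟨N, n, hN, hn, h1⟩ := h k
    exact hone hB N n hn h1 k hN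

end Pool.Agent.Q138.AI.R301213
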