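import Pool.Agent.Q189.MV.Out2

/-!
# Directness of the weight spaces and values of multiple polylogarithms at `1/n` and `1 - 1/n`

Let `Li_s(x) = ∑_{n_1 > … > n_k ≥ 1} x^{n_1} / (n_1^{s_1} ⋯ n_k^{s_k})`, weight `|s| = s_1 + ⋯ + s_k`, let `Z_j` be the `ℚ`-span of the
multiple zeta values of weight `j`, and for `n ≥ 2` let `V_j(n)` be the `ℚ`-span of the products `Li_s(1 - 1/n) Li_t(1/n)` with
`|s| + |t| = j`.

* If `V_0(n) + ⋯ + V_p(n)` is direct for one `n ≥ 2`, then `Z_0 + ⋯ + Z_p` is direct. If `Z_0 + ⋯ + Z_p` is direct, then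
  `V_0(n) + ⋯ + V_p(n)` is direct for all but `C T^(1-c)` of the integers `3 ≤ n ≤ T`. So the sum of all `Z_j` is direct if and
  only if for infinitely many `p` there is one `n ≥ 2` with `V_0(n) + ⋯ + V_p(n)` direct.
* An exact count of the relations between different weights: the defect of a sequence of spaces `G` up to `p` is
  `δ_p(G) = ∑_{j ≤ p} dim G_j - dim (G_0 + ⋯ + G_p)`, that is the dimension of the space of the relations `g_0 + ⋯ + g_p = 0`,
  `g_j ∈ G_j`; it vanishes if and only if the sum is direct. For each `N`, for all but `C T^(1-c)` of the `n ≤ T`: `δ_p(V(n)) = ∑_{k ≤ p} 2^k δ_{p-k}(Z)` for all `p ≤ N`. So the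
  relations between the values at `n` in different weights are those between multiple zeta values, multiplied by the `2^k`
  products `log(1/n)^a Li_t(1/n)` of weight `k`.

Proof. Path composition and regularisation: `V_j(n) = ∑_k W_k Z_{j-k}` with `W_k` spanned by the products of weight `k`; at almost
all `n` these are linearly independent over the space of all multiple zeta values of weight at most `N` (near relations
between values of hyperlogarithms at almost all points, `Pool.Agent.Q189.HL`).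
-/

set_option autoImplicit false

open Module

namespace Pool.Agent.Q138.AI.R4d52ff

/-- The `ℚ`-span of the multiple zeta values of weight `j`, as in the frozen statement. -/
noncomputable def Z (j : ℕ) : Submodule ℚ ℝ :=
  Submodule.span ℚ
    {x : ℝ | ∃ t : ℕ, ∃ k : Fin t → ℕ,
      (∀ i, 1 ≤ k i) ∧ (∀ h : 0 < t, 2 ≤ k ⟨0, h⟩) ∧ (∑ i, k i) = j ∧
      x = ∑' n : {n : Fin t → ℕ // StrictAnti n ∧ ∀ i, 1 ≤ n i},
            ∏ i, (((n.1 i : ℕ) : ℝ) ^ (k i))⁻¹}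

/-- the truncated sums `∑_{N ≥ n_1 > … > n_k ≥ 1} 1 / (n_1^{s_1} ⋯ n_k^{s_k})` -/
noncomputable def trunc : List ℕ → ℕ → ℝ
  | [], _ => 1
  | a :: s, N => ∑ n ∈ Finset.range N, 1 / ((n : ℝ) + 1) ^ a * trunc s n

/-- the multiple polylogarithm `Li_s(x) = ∑_{n_1 > … > n_k ≥ 1} x^{n_1} / (n_1^{s_1} ⋯ n_k^{s_k})` -/
noncomputable def Li : List ℕ → ℝ → ℝ
  | [], _ => 1
  | a :: s, x => ∑' n : ℕ, x ^ (n + 1) / ((n : ℝ) + 1) ^ a * trunc s n

/-- `V_j(n)`: the span of the products `Li_s(1 - 1/n) Li_t(1/n)` with `|s| + |t| = j` -/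
noncomputable def V (n j : ℕ) : Submodule ℚ ℝ :=
  Submodule.span ℚ {r | ∃ s t : List ℕ, (∀ a ∈ s, 1 ≤ a) ∧ (∀ a ∈ t, 1 ≤ a) ∧ s.sum + t.sum = j ∧
    r = Li s (1 - 1 / n) * Li t (1 / n)}

/-- the sum `G_0 + ⋯ + G_p` is direct -/
def Direct (G : ℕ → Submodule ℚ ℝ) (p : ℕ) : Prop :=
  ∀ z : ℕ → ℝ, (∀ j ≤ p, z j ∈ G j) → (∑ j ∈ Finset.range (p + 1), z j) = 0 → ∀ j ≤ p, z j = 0

/-- the defect of `G_0, …, G_p` -/
noncomputable def defect (G : ℕ → Submodule ℚ ℝ) (p : ℕ) : ℕ :=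
  ∑ j ∈ Finset.range (p + 1), finrank ℚ (G j) - finrank ℚ ((Finset.range (p + 1)).sup G : Submodule ℚ ℝ)

/-- (1) directness at one `n` and directness for the multiple zeta values; (2) the converse at almost all `n`; (3) the criterion for
Q1; (4) the subtraction in the defect is not truncated, and the defect vanishes exactly in the direct case; (5) the formula for
the defects at almost all `n`. -/
theorem result :
    (∀ p n : ℕ, 2 ≤ n → Direct (V n) p → Direct Z p) ∧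
    (∀ p : ℕ, Direct Z p → ∃ C c : ℝ, 0 < c ∧ ∀ T : ℕ, 1 ≤ T →
      (({n : ℕ | 3 ≤ n ∧ n ≤ T ∧ ¬ Direct (V n) p}.ncard : ℕ) : ℝ) ≤ C * (T : ℝ) ^ (1 - c)) ∧
    ((∀ p, Direct Z p) ↔ ∀ p₀ : ℕ, ∃ p n : ℕ, p₀ ≤ p ∧ 2 ≤ n ∧ Direct (V n) p) ∧
    (∀ G : ℕ → Submodule ℚ ℝ, (∀ j, FiniteDimensional ℚ (G j)) → ∀ p : ℕ,
      (defect G p : ℤ) = ∑ j ∈ Finset.range (p + 1), (finrank ℚ (G j) : ℤ) -
        finrank ℚ ((Finset.range (p + 1)).sup G : Submodule ℚ ℝ) ∧
      (defect G p = 0 ↔ Direct G p)) ∧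
    (∀ N : ℕ, ∃ C c : ℝ, 0 < c ∧ ∀ T : ℕ, 1 ≤ T →
      (({n : ℕ | 3 ≤ n ∧ n ≤ T ∧ ¬ ∀ p ≤ N, defect (V n) p =
        ∑ k ∈ Finset.range (p + 1), 2 ^ k * defect Z (p - k)}.ncard : ℕ) : ℝ) ≤ C * (T : ℝ) ^ (1 - c)) := by
  have hZ : Z = Pool.Agent.H447R2.MZ.Zs := rfl
  have ht : trunc = Pool.Agent.Q189.MV.trunc := by
    funext s
    induction s with
    | nil => rfl
    | cons a s ih =>
      funext N
      show ∑ n ∈ Finset.range N, 1 / ((n : ℝ) + 1) ^ a * trunc s n =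
        ∑ n ∈ Finset.range N, 1 / ((n : ℝ) + 1) ^ a * Pool.Agent.Q189.MV.trunc s n
      rw [ih]
  have hL : Li = Pool.Agent.Q189.MV.Lis := by
    funext s x
    rcases s with _ | ⟨a, s⟩
    · rfl
    · show ∑' n : ℕ, x ^ (n + 1) / ((n : ℝ) + 1) ^ a * trunc s n =
        ∑' n : ℕ, x ^ (n + 1) / ((n : ℝ) + 1) ^ a * Pool.Agent.Q189.MV.trunc s n
      rw [ht]
  have hV : V = fun n : ℕ => Pool.Agent.Q189.MV.Spc (1 / n) := by
    funext n N
    unfold V Pool.Agent.Q189.MV.Spc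
    rw [hL]
  have hD : Direct = Pool.Agent.Q189.MV.Dir := rfl
  have hdef : defect = Pool.Agent.Q189.MV.defect := rfl
  have hle : ∀ G : ℕ → Submodule ℚ ℝ, (∀ j, FiniteDimensional ℚ (G j)) → ∀ p : ℕ,
      finrank ℚ ((Finset.range (p + 1)).sup G : Submodule ℚ ℝ) ≤ ∑ j ∈ Finset.range (p + 1), finrank ℚ (G j) :=
    fun G hG p => Pool.Agent.Q189.MV.finrank_sup_le hG p
  refine ⟨?_, ?_, ?_, fun G hG p => ⟨?_, ?_⟩, ?_⟩
  · rw [hV, hZ, hD]
    exact fun p n hn h => Pool.Agent.Q189.MV.dir_of hn h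
  · rw [hV, hZ, hD]
    exact fun p h => Pool.Agent.Q189.MV.dir_few h
  · rw [hV, hZ, hD]
    constructor
    · intro h p₀
      obtain ⟨C, c, hc, hf⟩ := Pool.Agent.Q189.MV.dir_few (h p₀)
      obtain ⟨n, hn, hn'⟩ := Pool.Agent.Q189.Z3.exists_of_few hc hf
      exact ⟨p₀, n, le_rfl, by omega, not_not.1 hn'⟩
    · intro h p₀
      obtain ⟨p, n, hp, hn, hd⟩ := h p₀
      exact (Pool.Agent.Q189.MV.dir_of hn hd).le hp
  · unfold defect
    rw [Nat.cast_sub (hle G hG p)]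
    push_cast
    rfl
  · rw [hD, Pool.Agent.Q189.MV.dir_iff hG p]
    unfold defect
    have := hle G hG p
    omega
  · rw [hV, hZ, hdef]
    exact Pool.Agent.Q189.MV.defects

end Pool.Agent.Q138.AI.R4d52ff
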