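import Pool.Agent.Q189.MV.Out

/-!
# Zagier's dimension conjecture and the values of multiple polylogarithms at `1/n` and `1 - 1/n`

Let `Li_s(x) = ∑_{n_1 > … > n_k ≥ 1} x^{n_1} / (n_1^{s_1} ⋯ n_k^{s_k})` (all `s_i ≥ 1`, weight `|s| = s_1 + ⋯ + s_k`), let `Z_N` be the
`ℚ`-span of the multiple zeta values of weight `N`, and for integers `n ≥ 2` let `V_N(n)` be the `ℚ`-span of the products
`Li_s(1 - 1/n) Li_t(1/n)` with `|s| + |t| = N`.

* For all `n ≥ 2`: `Z_N ⊆ V_N(n)`, and `dim V_N(n) ≤ ∑_{k ≤ N} 2^k dim Z_{N-k}`.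
* For each `N` this is an equality (for all `M ≤ N`) at almost all `n`: for all but `C T^(1-c)` of the integers `3 ≤ n ≤ T`.
* Let `d_k` be Zagier's numbers; it is known that `dim Z_k ≤ d_k`. Then `dim Z_k = d_k` for all `k ≤ N` if and only if
  `dim V_N(n) ≥ ∑_{k ≤ N} 2^k d_{N-k}` for ONE `n ≥ 2`. So the conjecture holds if and only if for infinitely many `N` there
  is one such `n`.
* Without the known bound: for every sequence `d`, `dim Z_k = d_k` for all `k` if and only if for each `N` the dimensions of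
  `V_M(n)`, `M ≤ N`, are `∑_{k ≤ M} 2^k d_{M-k}` for all but `C T^(1-c)` of the `n ≤ T`.

So the relations between multiple zeta values are exactly the relations between these convergent values at almost all `n`
that do not come from the shuffle products and from path composition.

Proof. (1) Path composition between `0` and `1`: `∑_{w = uv} Li_{u'}(1 - x) Li_v(x) = ζ(w')` for words, where `'` reverses the
word and exchanges the letters; with the regularisation of words beginning with `1` this gives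
`V_N(n) = ∑_k W_k Z_{N-k}`, `W_k` spanned by the `2^k` products `log(1/n)^a Li_t(1/n)`, `a + |t| = k`. (2) At almost all `n` these
products are linearly independent over any given finitely generated space of complex numbers, here the multiple zeta
values of weight at most `N` (`Pool.Agent.Q189.HL`: near relations between values of hyperlogarithms at almost all
points).
-/

set_option autoImplicit false

open Module

namespace Pool.Agent.Q138.AI.R56e040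

/-- The `ℚ`-span of the multiple zeta values of weight `n`. -/
noncomputable def Z (n : ℕ) : Submodule ℚ ℝ :=
  Submodule.span ℚ
    {x : ℝ | ∃ k : ℕ, ∃ s : Fin k → ℕ,
      (∀ i, 1 ≤ s i) ∧ (∀ h : 0 < k, 2 ≤ s ⟨0, h⟩) ∧ (∑ i, s i) = n ∧
      x = ∑' m : {m : Fin k → ℕ // StrictAnti m ∧ ∀ i, 0 < m i},
            ∏ i, (((m.1 i : ℕ) : ℝ) ^ (s i))⁻¹}

/-- the truncated sums `∑_{N ≥ n_1 > … > n_k ≥ 1} 1 / (n_1^{s_1} ⋯ n_k^{s_k})` -/
noncomputable def trunc : List ℕ → ℕ → ℝ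
  | [], _ => 1
  | a :: s, N => ∑ n ∈ Finset.range N, 1 / ((n : ℝ) + 1) ^ a * trunc s n

/-- the multiple polylogarithm `Li_s(x) = ∑_{n_1 > … > n_k ≥ 1} x^{n_1} / (n_1^{s_1} ⋯ n_k^{s_k})` -/
noncomputable def Li : List ℕ → ℝ → ℝ
  | [], _ => 1
  | a :: s, x => ∑' n : ℕ, x ^ (n + 1) / ((n : ℝ) + 1) ^ a * trunc s n

/-- `V_N(n)`: the span of the products `Li_s(1 - 1/n) Li_t(1/n)` with `|s| + |t| = N` -/
noncomputable def V (n N : ℕ) : Submodule ℚ ℝ :=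
  Submodule.span ℚ {r | ∃ s t : List ℕ, (∀ a ∈ s, 1 ≤ a) ∧ (∀ a ∈ t, 1 ≤ a) ∧ s.sum + t.sum = N ∧
    r = Li s (1 - 1 / n) * Li t (1 / n)}

/-- (1) the upper bound for all `n ≥ 2`; (2) equality at almost all `n`; (3) the criterion by one `n`, given the known upper
bound; (4) the criterion by almost all `n`. -/
theorem result :
    (∀ n N : ℕ, 2 ≤ n → Z N ≤ V n N ∧ finrank ℚ (V n N) ≤ ∑ k ∈ Finset.range (N + 1), 2 ^ k * finrank ℚ (Z (N - k))) ∧
    (∀ N : ℕ, ∃ C c : ℝ, 0 < c ∧ ∀ T : ℕ, 1 ≤ T →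
      (({n : ℕ | 3 ≤ n ∧ n ≤ T ∧ ¬ ∀ M ≤ N, finrank ℚ (V n M) =
        ∑ k ∈ Finset.range (M + 1), 2 ^ k * finrank ℚ (Z (M - k))}.ncard : ℕ) : ℝ) ≤ C * (T : ℝ) ^ (1 - c)) ∧
    (∀ d : ℕ → ℕ, d 0 = 1 → d 1 = 0 → d 2 = 1 → (∀ n, 3 ≤ n → d n = d (n - 2) + d (n - 3)) → (∀ k, finrank ℚ (Z k) ≤ d k) →
      (∀ N : ℕ, (∀ k ≤ N, finrank ℚ (Z k) = d k) ↔
        ∃ n : ℕ, 2 ≤ n ∧ ∑ k ∈ Finset.range (N + 1), 2 ^ k * d (N - k) ≤ finrank ℚ (V n N)) ∧
      ((∀ k, finrank ℚ (Z k) = d k) ↔ ∀ N₀ : ℕ, ∃ N n : ℕ, N₀ ≤ N ∧ 2 ≤ n ∧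
        ∑ k ∈ Finset.range (N + 1), 2 ^ k * d (N - k) ≤ finrank ℚ (V n N))) ∧
    (∀ d : ℕ → ℕ, (∀ k, finrank ℚ (Z k) = d k) ↔ ∀ N : ℕ, ∃ C c : ℝ, 0 < c ∧ ∀ T : ℕ, 1 ≤ T →
      (({n : ℕ | 3 ≤ n ∧ n ≤ T ∧ ¬ ∀ M ≤ N, finrank ℚ (V n M) =
        ∑ k ∈ Finset.range (M + 1), 2 ^ k * d (M - k)}.ncard : ℕ) : ℝ) ≤ C * (T : ℝ) ^ (1 - c)) := by
  have hZ : Z = Pool.Agent.H447R2.MZ.Zs := rfl
  have ht : trunc = Pool.Agent.Q189.MV.trunc := by
    funext s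
    induction s with
    | nil => rfl
    | cons a s ih =>
      funext N
      show ∑ n ∈ Finset.range N, 1 / ((n : ℝ) + 1) ^ a * trunc s n =
        ∑ n ∈ Finset.range N, 1 / ((n : ℝ) + 1) ^ a * Pool.Agent.Q189.MV.trunc s n
      rw [ih]
  have hL : Li = Pool.Agent.Q189.MV.Lis := by
    funext s x
    rcases s with _ | ⟨a, s⟩
    · rfl
    · show ∑' n : ℕ, x ^ (n + 1) / ((n : ℝ) + 1) ^ a * trunc s n =
        ∑' n : ℕ, x ^ (n + 1) / ((n : ℝ) + 1) ^ a * Pool.Agent.Q189.MV.trunc s n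
      rw [ht]
  have hV : V = fun n N : ℕ => Pool.Agent.Q189.MV.Spc (1 / n) N := by
    funext n N
    unfold V Pool.Agent.Q189.MV.Spc
    rw [hL]
  rw [hV, hZ]
  beta_reduce
  refine ⟨fun n N hn => ?_, Pool.Agent.Q189.MV.dims, fun d _ _ _ _ hd => ?_, fun d => ?_⟩
  · obtain ⟨h1, h2⟩ := Pool.Agent.Q189.MV.inv_pos_lt hn
    rw [Pool.Agent.Q189.MV.Spc_eq h1 h2]
    exact ⟨Pool.Agent.Q189.MV.Zs_le_VN h1 h2 N, Pool.Agent.Q189.MV.finrank_VN_le h1 h2 N⟩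
  · have h1 := Pool.Agent.Q189.MV.dim_crit hd
    refine ⟨h1, fun h N₀ => ?_, fun h k => ?_⟩
    · obtain ⟨n, hn⟩ := (h1 N₀).1 fun k _ => h k
      exact ⟨N₀, n, le_rfl, hn⟩
    · obtain ⟨N, n, hN, hn⟩ := h k
      exact (h1 N).2 ⟨n, hn⟩ k hN
  · constructor
    · intro h N
      obtain ⟨C, c, hc, hf⟩ := Pool.Agent.Q189.MV.dims N
      simp only [h] at hf
      exact ⟨C, c, hc, hf⟩
    · intro h k
      obtain ⟨C, c, hc, hf⟩ := h k
      obtain ⟨C', c', hc', hf'⟩ := Pool.Agent.Q189.MV.dims k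
      have h3 : ∃ n : ℕ, 3 ≤ n ∧ ¬ ((¬ ∀ M ≤ k, finrank ℚ (Pool.Agent.Q189.MV.Spc (1 / n) M) =
          ∑ i ∈ Finset.range (M + 1), 2 ^ i * d (M - i)) ∨
        ¬ ∀ M ≤ k, finrank ℚ (Pool.Agent.Q189.MV.Spc (1 / n) M) =
          ∑ i ∈ Finset.range (M + 1), 2 ^ i * finrank ℚ (Pool.Agent.H447R2.MZ.Zs (M - i))) := by
        refine Pool.Agent.Q189.MV.exists_of_few2 hc hc' hf hf'
      obtain ⟨n, hn, hn'⟩ := h3
      push Not at hn'
      refine Pool.Agent.Q189.MV.eq_of_sums (f := fun k => finrank ℚ (Pool.Agent.H447R2.MZ.Zs k)) (N := k) (fun M hM => ?_) k le_rfl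
      rw [← hn'.1 M hM, hn'.2 M hM]

end Pool.Agent.Q138.AI.R56e040
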