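import Pool.Agent.Q258.TwoPar.C

/-!
# The numbers `e^(β e^α)` along lines of exponents

`e^e` is the case `α = β = 1`. For all nonzero algebraic `α`, `β` one of `e^(β e^α)` and
`e^(γ e^(2α))`, `γ = q β² / α`, is transcendental; and `e^α`, `e^(y e^(rα))` are algebraically
independent for all rational `r` outside a set in which every difference occurs at most twice
(four times for arbitrary `y`).
-/

set_option autoImplicit false

namespace Pool.Agent.Q138.AI.R58ae59

open Pool.Agent.Q258.TwoPar Pool.Agent.W243.TD Pointwise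

/-- algebraic over the rational numbers -/
abbrev Alg (z : ℂ) : Prop := IsAlgebraic ℚ z

/-- the rational `r` for which `e^τ` and `e^(y e^(rτ))` are algebraically dependent over `ℚ` -/
def R (τ y : ℂ) : Set ℚ :=
  {r : ℚ | ¬ AlgebraicIndependent ℚ ![Complex.exp τ, Complex.exp (y * Complex.exp (r * τ))]}

theorem encard_le {S : Set ℚ} (m : ℕ) (h : ∀ F : Finset ℚ, (F : Set ℚ) ⊆ S → F.card ≤ m) :
    S.encard ≤ m := by
  by_contra hcon
  push Not at hcon
  have h3 : ((m + 1 : ℕ) : ℕ∞) ≤ S.encard := by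
    have := Order.add_one_le_of_lt hcon
    exact_mod_cast this
  obtain ⟨t, ht, ht3⟩ := Set.exists_subset_encard_eq h3
  have hfin : t.Finite := by
    apply Set.finite_of_encard_eq_coe (k := m + 1)
    exact ht3
  have h4 := h hfin.toFinset (by simpa using ht)
  rw [hfin.encard_eq_coe_toFinset_card] at ht3
  have : hfin.toFinset.card = m + 1 := by exact_mod_cast ht3
  omega

theorem fin_pair {S : Set ℚ} (d : ℚ) (hd : d ≠ 0) (m : ℕ)
    (h : ∀ X W : Finset ℚ, (W : Set ℚ) ⊆ S → X = {0, d} → X.card * W.card ≤ (X + W).card + m) :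
    {r : ℚ | r ∈ S ∧ r + d ∈ S}.encard ≤ m := by
  classical
  apply encard_le
  intro F hF
  have h1 := pair_bound (F ∪ F.image (fun r => r + d)) d hd m (h {0, d} _ (by
    intro x hx
    rw [Finset.mem_coe, Finset.mem_union, Finset.mem_image] at hx
    rcases hx with hx | ⟨y, hy, rfl⟩
    · exact (hF hx).1
    · exact (hF hy).2) rfl)
  refine (Finset.card_le_card ?_).trans h1
  intro x hx
  rw [Finset.mem_filter, Finset.mem_union, Finset.mem_union]
  exact ⟨Or.inl hx, Or.inr (Finset.mem_image_of_mem _ hx)⟩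

/-- **Main result.** -/
theorem result :
    -- (1)
    (∀ α β : ℂ, Alg α → Alg β → α ≠ 0 → β ≠ 0 → ∀ q : ℚ, q ≠ 0 →
      Transcendental ℚ (Complex.exp (β * Complex.exp α)) ∨
      Transcendental ℚ (Complex.exp (q * β ^ 2 / α * Complex.exp (2 * α)))) ∧
    -- (2) any transcendental `e^τ`, any `y ≠ 0`
    (∀ τ y : ℂ, Transcendental ℚ (Complex.exp τ) → y ≠ 0 →
      (∀ X W : Finset ℚ, (W : Set ℚ) ⊆ R τ y →
        X.card * W.card ≤ (X + W).card + 2 * (X.card * (X.card - 1))) ∧
      (∀ d : ℚ, d ≠ 0 → {r : ℚ | r ∈ R τ y ∧ r + d ∈ R τ y}.encard ≤ 4)) ∧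
    -- (3) `y` algebraically dependent on `e^τ`, for instance algebraic
    (∀ τ y : ℂ, Transcendental ℚ (Complex.exp τ) → y ≠ 0 →
      ¬ AlgebraicIndependent ℚ ![Complex.exp τ, y] →
      (∀ X W : Finset ℚ, (W : Set ℚ) ⊆ R τ y →
        X.card * W.card ≤ (X + W).card + X.card * (X.card - 1)) ∧
      (∀ d : ℚ, d ≠ 0 → {r : ℚ | r ∈ R τ y ∧ r + d ∈ R τ y}.encard ≤ 2)) ∧
    -- (4) all exponents algebraic
    (∀ α β : ℂ, Alg α → Alg β → α ≠ 0 → β ≠ 0 → ∀ d : ℚ, d ≠ 0 →
      {r : ℚ | r ∈ R α β ∧ r + d ∈ R α β}.encard ≤ 2) ∧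
    -- (5) `e^(e^d)`, `e^(e^(2d))`, `e^(e^(3d))`
    (∀ d : ℚ, d ≠ 0 → ∃ i : ℕ, 1 ≤ i ∧ i ≤ 3 ∧
      AlgebraicIndependent ℚ ![Complex.exp 1, Complex.exp (Complex.exp (i * d))]) := by
  have two : ∀ τ y : ℂ, Transcendental ℚ (Complex.exp τ) → y ≠ 0 →
      ∀ X W : Finset ℚ, (W : Set ℚ) ⊆ R τ y →
        X.card * W.card ≤ (X + W).card + 2 * (X.card * (X.card - 1)) := by
    intro τ y hτ hy X W hW
    exact sum2 hτ hy X W (fun r hr => dep_al hτ (hW hr))
  have one : ∀ τ y : ℂ, Transcendental ℚ (Complex.exp τ) → y ≠ 0 →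
      ¬ AlgebraicIndependent ℚ ![Complex.exp τ, y] → ∀ X W : Finset ℚ, (W : Set ℚ) ⊆ R τ y →
        X.card * W.card ≤ (X + W).card + X.card * (X.card - 1) := by
    intro τ y hτ hy hy' X W hW
    exact sum1 hτ hy (dep_al hτ hy') X W (fun r hr => dep_al hτ (hW hr))
  have onep : ∀ τ y : ℂ, Transcendental ℚ (Complex.exp τ) → y ≠ 0 →
      ¬ AlgebraicIndependent ℚ ![Complex.exp τ, y] →
      ∀ d : ℚ, d ≠ 0 → {r : ℚ | r ∈ R τ y ∧ r + d ∈ R τ y}.encard ≤ 2 := by
    intro τ y hτ hy hy' d hd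
    refine fin_pair d hd 2 ?_
    intro X W hW hX
    have := one τ y hτ hy hy' X W hW
    have h2 : X.card = 2 := by rw [hX]; exact Finset.card_pair hd.symm
    rw [h2] at this ⊢
    omega
  have alg : ∀ α β : ℂ, Alg α → Alg β → α ≠ 0 → β ≠ 0 → ∀ d : ℚ, d ≠ 0 →
      {r : ℚ | r ∈ R α β ∧ r + d ∈ R α β}.encard ≤ 2 := by
    intro α β hα hβ hα0 hβ0 d hd
    refine onep α β (Pool.Agent.H340R2.LW.transcendental_cexp α hα hα0) hβ0 ?_ d hd
    intro h
    have h1 : Transcendental ℚ ((![Complex.exp α, β] : Fin 2 → ℂ) 1) := h.transcendental 1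
    exact h1 hβ
  refine ⟨?_, fun τ y hτ hy => ⟨two τ y hτ hy, ?_⟩, fun τ y hτ hy hy' =>
    ⟨one τ y hτ hy hy', onep τ y hτ hy hy'⟩, alg, ?_⟩
  · intro α β hα hβ hα0 hβ0 q hq
    by_contra hcon
    push Not at hcon
    exact bw_line hα hβ hα0 hβ0 q hq (not_not.mp hcon.1) (not_not.mp hcon.2)
  · intro d hd
    refine fin_pair d hd 4 ?_
    intro X W hW hX
    have := two τ y hτ hy X W hW
    have h2 : X.card = 2 := by rw [hX]; exact Finset.card_pair hd.symm
    rw [h2] at this ⊢
    omega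
  · intro d hd
    by_contra hcon
    push Not at hcon
    have h0 : ∀ i : ℕ, i ≤ 3 → ((i : ℚ) * d) ∈ R 1 1 := by
      intro i hi
      rcases Nat.eq_zero_or_pos i with rfl | hpos
      · show ¬ AlgebraicIndependent ℚ _
        intro h
        have h1 := h.injective
        have := @h1 0 1 (by
          show Complex.exp 1 = Complex.exp (1 * Complex.exp (((((0 : ℕ) : ℚ) * d : ℚ) : ℂ) * 1))
          simp)
        exact absurd this (by decide)
      · have h1 := hcon i hpos hi
        show ¬ AlgebraicIndependent ℚ _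
        have e : (1 : ℂ) * Complex.exp ((((i : ℚ) * d : ℚ) : ℂ) * 1) = Complex.exp (i * d) := by
          push_cast
          rw [one_mul, mul_one]
        rw [e]
        exact h1
    have h1 := alg 1 1 isAlgebraic_one isAlgebraic_one one_ne_zero one_ne_zero d hd
    have h2 : ((({0, d, 2 * d} : Finset ℚ) : Set ℚ)).encard ≤ 2 := by
      refine (Set.encard_le_encard ?_).trans h1
      intro x hx
      simp only [Finset.coe_insert, Finset.coe_singleton, Set.mem_insert_iff,
        Set.mem_singleton_iff] at hx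
      rcases hx with rfl | rfl | rfl
      · exact ⟨by simpa using h0 0 (by norm_num), by simpa using h0 1 (by norm_num)⟩
      · refine ⟨by simpa using h0 1 (by norm_num), ?_⟩
        have := h0 2 (by norm_num)
        convert this using 1
        push_cast
        ring
      · refine ⟨by simpa using h0 2 (by norm_num), ?_⟩
        have := h0 3 (by norm_num)
        convert this using 1
        push_cast
        ring
    rw [Set.encard_coe_eq_coe_finsetCard] at h2
    have h3 : ({0, d, 2 * d} : Finset ℚ).card = 3 := by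
      rw [Finset.card_eq_three]
      refine ⟨0, d, 2 * d, hd.symm, ?_, ?_, rfl⟩
      · intro h
        apply hd
        linarith
      · intro h
        apply hd
        linarith
    rw [h3] at h2
    norm_num at h2

end Pool.Agent.Q138.AI.R58ae59
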