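import Mathlib
import Pool.Agent.Q158.F2P.Main
import Pool.Agent.Results.MP_6babc4_nt.AllFieldsFrey

/-!
# Frey's inequality without additive constant for almost all members of every one-parameter family,
# uniformly in the family and over all number fields of all degrees

Frey asks for constants `κ`, `c`, depending only on the number field `K` and on `g`, such that
`h_F(A) ≤ κ log N_A + c` for all abelian varieties `A` over `K` of dimension `g`.

Let `L` be ANY number field, of any degree `n`, and let `j(T) = F(T) / G(T)` be ANY rational function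
over `L` of degree at most `D`, with coefficients of absolute height at most `H`, which has at least
two different poles on the projective line over the algebraic closure. For the parameters `t ∈ L` of
absolute height at most `B` (there are about `B ^ (2 n)` of them) we consider ALL elliptic curves `E`
over `L` of invariant `j(t)` (all twists) and the Weil restrictions `A = Res_{L/K} E` to ALL subfields
`K` of `L`, of dimension `g = [L : K]`. Let `r` be the number of the poles of `j(T)` in `P¹(L)` and
`e = 2 / max(2, r)`. We show: for `κ ≥ 1 / 2` the inequality without additive constant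
`h_F(A) ≤ (κ / [K : ℚ]) log N_A` holds for all `E` and `K`, for all `t` outside a set of at most
`(C (B ^ D H ^ (2 D + 2)) ^ (e / (12 κ)) (B H) ^ ε) ^ n` parameters, and `C` depends only on `D` and
`ε`. So
* the exceptional set is at most `(C (B H) ^ ε) ^ n` for `κ ≥ κ(D, ε)`, and these constants depend
  neither on the family nor on the field nor on its degree;
* the slope `κ = 1 / 2` of Szpiro's conjecture holds for almost all members when `e D < 12`, for
  instance for every family of degree `D < 12` with two poles (for the Legendre family `D = 6`,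
  `r = 3`, the exceptional set has at most `(C B ^ (2 / 3 + ε)) ^ n` elements).
The sharper statement distinguishes multiplicative and additive reduction.

Proof: (1) at each prime the exponent of the minimal discriminant is compared with the pole of `j` and
with the type of reduction; this gives the inequality as soon as the truncated counting function of the
poles of `j(t)` is at least `(1 / A) log H(j(t)) + O(n)`. (2) If `π`, `ρ` are two poles, then outside
the primes which are bad for the family `(t - π) / (t - ρ)` is a unit at the primes which are not above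
a pole of `j(t)`. The sets of primes of `L` of small weight, the ideals supported above such a set and
the units are counted uniformly over all number fields.
-/

set_option autoImplicit false

namespace Pool.Agent.Q138.AI.R6babc4

open NumberField Polynomial
open Pool.Agent.Results.MP_6babc4_nt.AllFieldsFrey (IsPeriod height multNorm addNorm relDisc cond Inv)

/-- The sharp form of Frey's inequality, without additive constant, for the Weil restrictions to all
subfields `K` of `L` of all elliptic curves over `L` of invariant `j`: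
`12 [K : ℚ] h_F(A) ≤ a log (multNorm E) + (a / 2 + 3) log (addNorm E) + 3 log (relDisc ^ 2)`. -/
def FreySharp (a : ℝ) {L : Type} [Field L] [NumberField L] (j : L) : Prop :=
  ∀ (K : Type) [Field K] [NumberField K] [Algebra K L] (E : WeierstrassCurve L)
    (τ : InfinitePlace L → UpperHalfPlane), E.Δ ≠ 0 → E.c₄ ^ 3 / E.Δ = j → IsPeriod j τ →
    12 * Module.finrank ℚ K * height K E τ ≤ a * Real.log (multNorm E) +
      (a / 2 + 3) * Real.log (addNorm E) + 3 * Real.log (relDisc K L ^ 2)

/-- Frey's inequality `h_F(A) ≤ (κ / [K : ℚ]) log N_A`, without additive constant, for the Weil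
restrictions to all subfields `K` of `L` of all elliptic curves over `L` of invariant `j`. -/
def Frey (κ : ℝ) {L : Type} [Field L] [NumberField L] (j : L) : Prop :=
  ∀ (K : Type) [Field K] [NumberField K] [Algebra K L] (E : WeierstrassCurve L)
    (τ : InfinitePlace L → UpperHalfPlane), E.Δ ≠ 0 → E.c₄ ^ 3 / E.Δ = j → IsPeriod j τ →
    height K E τ ≤ κ / Module.finrank ℚ K * Real.log (cond K E)

/-- `F/G` has at least two different poles on the projective line over the algebraic closure. -/
def TwoPoles {L : Type} [Field L] (F G : L[X]) : Prop :=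
  (∃ x y : AlgebraicClosure L, x ≠ y ∧ aeval x G = 0 ∧ aeval y G = 0) ∨
    (0 < G.natDegree ∧ G.natDegree < F.natDegree)

open Classical in
/-- The number of the poles of `F/G` on the projective line over `L`. -/
noncomputable def polesOver {L : Type} [Field L] (F G : L[X]) : ℕ :=
  G.roots.toFinset.card + if G.natDegree < F.natDegree then 1 else 0

/-- The number `e = 2 / max(2, r)`, where `r` is the number of the poles in `P¹(L)`. -/
noncomputable def gain {L : Type} [Field L] (F G : L[X]) : ℝ :=
  2 / ((max 2 (polesOver F G) : ℕ) : ℝ)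

/-- `(F, G)` is a family of invariants over `L` of degree at most `D`, with coefficients of absolute
height at most `H`, with at least two different poles. -/
structure IsFamily {L : Type} [Field L] [NumberField L] (D : ℕ) (H : ℝ) (F G : L[X]) : Prop where
  coprime : IsCoprime F G
  ne_zero : G ≠ 0
  poles : TwoPoles F G
  deg_num : F.natDegree ≤ D
  deg_den : G.natDegree ≤ D
  ht_num : ∀ i, F.coeff i ∈ Inv L H
  ht_den : ∀ i, G.coeff i ∈ Inv L H

/-- The parameters of absolute height at most `B` for which the sharp form fails. -/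
def ExcSharp {L : Type} [Field L] [NumberField L] (F G : L[X]) (a B : ℝ) : Set L :=
  {t ∈ Inv L B | G.eval t ≠ 0 ∧ ¬ FreySharp a (F.eval t / G.eval t)}

/-- The parameters of absolute height at most `B` for which Frey's inequality with the slope
`κ / [K : ℚ]` and without constant fails. -/
def Exc {L : Type} [Field L] [NumberField L] (F G : L[X]) (κ B : ℝ) : Set L :=
  {t ∈ Inv L B | G.eval t ≠ 0 ∧ ¬ Frey κ (F.eval t / G.eval t)}

section Aux

theorem frey_of_sharp {κ : ℝ} (hκ : 1 / 2 ≤ κ) {L : Type} [Field L] [NumberField L] {j : L}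
    (h : FreySharp (12 * κ) j) : Frey κ j := by
  intro K _ _ _ E τ hE hj hτ
  have h1 := h K E τ hE hj hτ
  have hn : (0 : ℝ) < Module.finrank ℚ K := by exact_mod_cast Module.finrank_pos
  have hd1 : (0 : ℝ) < |(discr L : ℝ)| := by
    have : (discr L : ℝ) ≠ 0 := by exact_mod_cast discr_ne_zero L
    positivity
  have hd2 : (0 : ℝ) < |(discr K : ℝ)| := by
    have : (discr K : ℝ) ≠ 0 := by exact_mod_cast discr_ne_zero K
    positivity
  have hm : 0 < multNorm E := Pool.Agent.Y733.FF.multN_pos E hE
  have ha : 0 < addNorm E := Pool.Agent.Y733.FF.addN_pos E hE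
  have hr : 0 < relDisc K L := by
    unfold relDisc
    positivity
  have hla : 0 ≤ Real.log (addNorm E) := by
    have e : Real.log (addNorm E) = 2 * ∑ᶠ v, Pool.Agent.Y733.FF.aw v E :=
      Pool.Agent.Y733.FF.log_addN E hE
    rw [e]
    exact mul_nonneg (by norm_num) (finsum_nonneg fun v => Pool.Agent.Y733.FF.aw_nonneg v E)
  have hlr : 0 ≤ Real.log (relDisc K L ^ 2) := by
    have h2 := Pool.Agent.Y733.FF.disc_ge K L
    unfold relDisc
    rw [Real.log_pow, Real.log_div hd1.ne' (pow_pos hd2 _).ne', Real.log_pow]
    have : 0 ≤ Real.log |(discr L : ℝ)| - Module.finrank K L * Real.log |(discr K : ℝ)| := by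
      linarith
    push_cast
    positivity
  have hc : Real.log (cond K E) = Real.log (multNorm E) + Real.log (addNorm E) +
      Real.log (relDisc K L ^ 2) := by
    unfold Pool.Agent.Results.MP_6babc4_nt.AllFieldsFrey.cond
    rw [Real.log_mul (mul_pos hm ha).ne' (pow_pos hr 2).ne', Real.log_mul hm.ne' ha.ne']
  have h3 : (12 * κ / 2 + 3) * Real.log (addNorm E) ≤ 12 * κ * Real.log (addNorm E) :=
    mul_le_mul_of_nonneg_right (by linarith) hla
  have h4 : 3 * Real.log (relDisc K L ^ 2) ≤ 12 * κ * Real.log (relDisc K L ^ 2) :=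
    mul_le_mul_of_nonneg_right (by linarith) hlr
  rw [hc, div_mul_eq_mul_div, le_div_iff₀ hn]
  linarith

/-- logarithmic form of the main theorem -/
theorem exc_log (D : ℕ) {ε : ℝ} (hε : 0 < ε) : ∃ C : ℝ, 0 ≤ C ∧ ∀ a : ℝ, 4 ≤ a →
    ∀ (L : Type) [Field L] [NumberField L] (F G : L[X]) (H B : ℝ), IsFamily D H F G →
      (ExcSharp F G a B).Finite ∧ ((ExcSharp F G a B).ncard : ℝ) ≤
        Real.exp (Module.finrank ℚ L * (C + gain F G / a * (D * Real.log B +
          (2 * D + 2) * Real.log H) + ε * (Real.log B + Real.log H))) := by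
  classical
  obtain ⟨C, hC, hmain⟩ := Pool.Agent.Q158.F2P.main D hε
  refine ⟨C, hC, ?_⟩
  intro a ha L _ _ F G H B hFG
  refine Pool.Agent.Results.MP_6babc4_nt.AllFieldsFrey.ncard_le fun E hE => ?_
  have hpoles : (Pool.Agent.Q158.F2P.ratPoles F G).card = polesOver F G := by
    rw [Pool.Agent.Q158.F2P.card_ratPoles]
    unfold polesOver
    congr!
  have h := hmain a ha L F G (Module.finrank ℚ L * Real.log H) hFG.deg_num hFG.deg_den hFG.coprime
    hFG.ne_zero hFG.poles hFG.ht_num hFG.ht_den (Module.finrank ℚ L * Real.log B) E ?_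
  · refine h.trans (Real.exp_le_exp.2 (le_of_eq ?_))
    rw [hpoles]
    unfold gain
    ring
  · intro t ht
    obtain ⟨h1, h2, h3⟩ := hE (Finset.mem_coe.2 ht)
    refine ⟨h1, h2, ?_⟩
    unfold FreySharp at h3
    push Not at h3
    obtain ⟨K, i1, i2, i3, W, τ, hW, hj, hτ, hlt⟩ := h3
    refine ⟨W, τ, hW, hj, hτ, ?_⟩
    rw [Pool.Agent.Results.MP_6babc4_nt.AllFieldsFrey.height_eq] at hlt
    have e1 : multNorm W = Pool.Agent.Y733.FF.multN W := rfl
    have e2 : addNorm W = Pool.Agent.Y733.FF.addN W := rfl
    rw [e1, e2] at hlt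
    linarith

/-- from the logarithmic form -/
theorem exp_form {n : ℕ} {C D B H g a ε : ℝ} (hB : 1 ≤ B) (hH : 1 ≤ H) :
    Real.exp (n * (C + g / a * (D * Real.log B + (2 * D + 2) * Real.log H) +
      ε * (Real.log B + Real.log H))) =
    (Real.exp C * (B ^ D * H ^ (2 * D + 2)) ^ (g / a) * (B * H) ^ ε) ^ n := by
  have hB0 : 0 < B := by linarith
  have hH0 : 0 < H := by linarith
  rw [Real.exp_nat_mul]
  congr 1
  rw [Real.exp_add, Real.exp_add]
  congr 1
  · congr 1
    rw [Real.rpow_def_of_pos (by positivity), Real.log_mul (by positivity) (by positivity),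
      Real.log_rpow hB0, Real.log_rpow hH0]
    congr 1
    ring
  · rw [Real.rpow_def_of_pos (by positivity), Real.log_mul hB0.ne' hH0.ne']
    congr 1
    ring

end Aux

/-- **Frey's inequality without constant for almost all members of every family.** For all `D` and
`ε > 0` there is `C > 0` such that for every number field `L`, of any degree `n`, every family
`F/G` over `L` of degree at most `D` with coefficients of absolute height at most `H` and with at
least two poles, and all `B ≥ 1`, `H ≥ 1`, with `e = gain F G ≤ 1`: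
(1) for all `a ≥ 4`, for all but at most `(C (B ^ D H ^ (2 D + 2)) ^ (e / a) (B H) ^ ε) ^ n` of the
`t ∈ L` of absolute height at most `B`, the sharp form holds for all `E` of invariant `F(t)/G(t)` and
all subfields `K`;
(2) for all `κ ≥ 1 / 2`, for all but at most
`(C (B ^ D H ^ (2 D + 2)) ^ (e / (12 κ)) (B H) ^ ε) ^ n` of them `h_F(A) ≤ (κ / [K : ℚ]) log N_A`
holds for all `E` and `K`, `A = Res_{L/K} E`. -/
theorem result (D : ℕ) (ε : ℝ) (hε : 0 < ε) : ∃ C : ℝ, 0 < C ∧
    ∀ (L : Type) [Field L] [NumberField L] (F G : L[X]) (H B : ℝ), IsFamily D H F G → 1 ≤ H →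
      1 ≤ B →
      (∀ a : ℝ, 4 ≤ a → (ExcSharp F G a B).Finite ∧ ((ExcSharp F G a B).ncard : ℝ) ≤
        (C * (B ^ (D : ℝ) * H ^ (2 * (D : ℝ) + 2)) ^ (gain F G / a) * (B * H) ^ ε) ^
          Module.finrank ℚ L) ∧
      (∀ κ : ℝ, 1 / 2 ≤ κ → (Exc F G κ B).Finite ∧ ((Exc F G κ B).ncard : ℝ) ≤
        (C * (B ^ (D : ℝ) * H ^ (2 * (D : ℝ) + 2)) ^ (gain F G / (12 * κ)) * (B * H) ^ ε) ^
          Module.finrank ℚ L) := by
  obtain ⟨C, hC, h⟩ := exc_log D hε
  refine ⟨Real.exp C, Real.exp_pos C, ?_⟩
  intro L _ _ F G H B hFG hH hB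
  have part1 : ∀ a : ℝ, 4 ≤ a → (ExcSharp F G a B).Finite ∧ ((ExcSharp F G a B).ncard : ℝ) ≤
      (Real.exp C * (B ^ (D : ℝ) * H ^ (2 * (D : ℝ) + 2)) ^ (gain F G / a) * (B * H) ^ ε) ^
        Module.finrank ℚ L := by
    intro a ha
    obtain ⟨h1, h2⟩ := h a ha L F G H B hFG
    refine ⟨h1, h2.trans (le_of_eq ?_)⟩
    rw [← exp_form hB hH]
  refine ⟨part1, fun κ hκ => ?_⟩
  obtain ⟨h1, h2⟩ := part1 (12 * κ) (by linarith)
  have hsub : Exc F G κ B ⊆ ExcSharp F G (12 * κ) B := fun t ht =>
    ⟨ht.1, ht.2.1, fun hcon => ht.2.2 (frey_of_sharp hκ hcon)⟩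
  refine ⟨h1.subset hsub, le_trans ?_ h2⟩
  exact_mod_cast Set.ncard_le_ncard hsub h1

end Pool.Agent.Q138.AI.R6babc4
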