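import Pool.Agent.Q189.MV.Hof3

/-!
# Hoffman's basis conjecture and values of multiple polylogarithms at `1/n` and `1 - 1/n`

Let `Li_s(x) = ∑_{n_1 > … > n_k ≥ 1} x^{n_1} / (n_1^{s_1} ⋯ n_k^{s_k})`, weight `|s| = s_1 + ⋯ + s_k` (all `s_i ≥ 1`).

* For EVERY set `F` of admissible indices: if the multiple zeta values `ζ(s)`, `s ∈ F`, `|s| ≤ N`, are linearly independent over
  `ℚ`, then for all but `C T^(1-c)` of the integers `3 ≤ n ≤ T` the numbers
  `log(1/n)^a Li_t(1/n) Li_s(1 - 1/n)`, `a ≥ 0`, `t` any index, `s ∈ F`, `a + |t| + |s| ≤ N`, are linearly independent over `ℚ`.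
* Let `F` be the set of the words in `2`, `3`, and assume Brown's theorem (the `ζ(s)`, `s ∈ F`, `|s| = k`, span the multiple zeta
  values of weight `k`). Then for each `N` the following are equivalent: the Hoffman elements of weight at most `N` are
  linearly independent; for ONE `n ≥ 2` the numbers above are linearly independent; for all but `C T^(1-c)` of the `n ≤ T` they
  are a basis of the `ℚ`-span of all products `Li_s(1 - 1/n) Li_t(1/n)` with `|s| + |t| ≤ N`.
* So Hoffman's conjecture holds if and only if for infinitely many `N` there is one `n ≥ 2` such that these explicit numbers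
  are linearly independent.

Proof. Path composition expresses `Li_s(1 - 1/n) - ζ(s)` by products of `log(1/n)^a Li_t(1/n)`, `a + |t| ≥ 1`, with multiple zeta
values of smaller weight; at almost all `n` the numbers `log(1/n)^a Li_t(1/n)` are linearly independent over all multiple zeta
values of weight at most `N` (near relations between values of hyperlogarithms, `Pool.Agent.Q189.HL`), and the system is
triangular. The converse is a comparison of dimensions.
-/

set_option autoImplicit false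

open Module

namespace Pool.Agent.Q138.AI.Rc2d7b4

/-- admissible indices -/
def Admissible (s : List ℕ) : Prop := (∀ a ∈ s, 1 ≤ a) ∧ ∀ a ∈ s.head?, 2 ≤ a

/-- words in `2` and `3` -/
def Word (s : List ℕ) : Prop := ∀ a ∈ s, a = 2 ∨ a = 3

/-- the multiple zeta value `ζ(s)` -/
noncomputable def zeta (s : List ℕ) : ℝ :=
  ∑' m : {m : Fin s.length → ℕ // StrictAnti m ∧ ∀ i, 0 < m i}, ∏ i, ((m.1 i : ℝ) ^ (s.get i))⁻¹

/-- Hoffman's conjecture: the Hoffman elements are a basis of the space of all multiple zeta values -/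
def IsBasis : Prop :=
  LinearIndependent ℚ (fun s : {s : List ℕ // Word s} => zeta s.1) ∧
    Submodule.span ℚ (Set.range fun s : {s : List ℕ // Word s} => zeta s.1) =
      Submodule.span ℚ {x : ℝ | ∃ s, Admissible s ∧ x = zeta s}

/-- Brown's theorem: the Hoffman elements of weight `k` span the multiple zeta values of weight `k` -/
def Brown : Prop :=
  ∀ k : ℕ, ∀ s, Admissible s → s.sum = k →
    zeta s ∈ Submodule.span ℚ (Set.range fun w : {w : List ℕ // Word w ∧ w.sum = k} => zeta w.1)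

/-- the truncated sums `∑_{N ≥ n_1 > … > n_k ≥ 1} 1 / (n_1^{s_1} ⋯ n_k^{s_k})` -/
noncomputable def trunc : List ℕ → ℕ → ℝ
  | [], _ => 1
  | a :: s, N => ∑ n ∈ Finset.range N, 1 / ((n : ℝ) + 1) ^ a * trunc s n

/-- the multiple polylogarithm `Li_s(x) = ∑_{n_1 > … > n_k ≥ 1} x^{n_1} / (n_1^{s_1} ⋯ n_k^{s_k})` -/
noncomputable def Li : List ℕ → ℝ → ℝ
  | [], _ => 1
  | a :: s, x => ∑' n : ℕ, x ^ (n + 1) / ((n : ℝ) + 1) ^ a * trunc s n

/-- the triples `(a, t, s)`: `t` an index, `s ∈ F`, `a + |t| + |s| ≤ N` -/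
abbrev Index (F : List ℕ → Prop) (N : ℕ) : Type :=
  {p : ℕ × List ℕ × List ℕ // (∀ a ∈ p.2.1, 1 ≤ a) ∧ F p.2.2 ∧ p.1 + p.2.1.sum + p.2.2.sum ≤ N}

/-- `log(1/n)^a Li_t(1/n) Li_s(1 - 1/n)` -/
noncomputable def value (n : ℕ) (p : ℕ × List ℕ × List ℕ) : ℝ :=
  Real.log (1 / n) ^ p.1 * Li p.2.1 (1 / n) * Li p.2.2 (1 - 1 / n)

/-- the span of all products `Li_s(1 - 1/n) Li_t(1/n)` with `|s| + |t| ≤ N` -/
noncomputable def U (n N : ℕ) : Submodule ℚ ℝ :=
  Submodule.span ℚ {r | ∃ s t : List ℕ, (∀ a ∈ s, 1 ≤ a) ∧ (∀ a ∈ t, 1 ≤ a) ∧ s.sum + t.sum ≤ N ∧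
    r = Li s (1 - 1 / n) * Li t (1 / n)}

/-- the family is a basis of `U_N(n)` -/
def BasisAt (n N : ℕ) : Prop :=
  LinearIndependent ℚ (fun p : Index Word N => value n p.1) ∧
    Submodule.span ℚ (Set.range fun p : Index Word N => value n p.1) = U n N

/-- (1) families of multiple zeta values and families of values at almost all `n`; (2) given Brown's theorem: the criterion for the
weights up to `N` by one `n`, and by almost all `n`; (3) the criterion for Hoffman's conjecture. -/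
theorem result :
    (∀ F : List ℕ → Prop, (∀ s, F s → Admissible s) → ∀ N : ℕ,
      LinearIndependent ℚ (fun s : {s : List ℕ // F s ∧ s.sum ≤ N} => zeta s.1) →
      ∃ C c : ℝ, 0 < c ∧ ∀ T : ℕ, 1 ≤ T → (({n : ℕ | 3 ≤ n ∧ n ≤ T ∧
        ¬ LinearIndependent ℚ (fun p : Index F N => value n p.1)}.ncard : ℕ) : ℝ) ≤ C * (T : ℝ) ^ (1 - c)) ∧
    (Brown → ∀ N : ℕ,
      (LinearIndependent ℚ (fun s : {s : List ℕ // Word s ∧ s.sum ≤ N} => zeta s.1) ↔
        ∃ n : ℕ, 2 ≤ n ∧ LinearIndependent ℚ (fun p : Index Word N => value n p.1)) ∧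
      (LinearIndependent ℚ (fun s : {s : List ℕ // Word s ∧ s.sum ≤ N} => zeta s.1) ↔
        ∃ C c : ℝ, 0 < c ∧ ∀ T : ℕ, 1 ≤ T →
          (({n : ℕ | 3 ≤ n ∧ n ≤ T ∧ ¬ BasisAt n N}.ncard : ℕ) : ℝ) ≤ C * (T : ℝ) ^ (1 - c))) ∧
    (Brown → (IsBasis ↔ ∀ N₀ : ℕ, ∃ N n : ℕ, N₀ ≤ N ∧ 2 ≤ n ∧
      LinearIndependent ℚ (fun p : Index Word N => value n p.1))) := by
  have hAdm : ∀ s, Admissible s ↔ Pool.Agent.H447R2.MZ.Adm s := by
    intro s
    unfold Admissible Pool.Agent.H447R2.MZ.Adm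
    refine and_congr_right fun _ => ?_
    constructor
    · intro h a t hs
      exact h a (by rw [hs]; rfl)
    · intro h a ha
      rcases s with _ | ⟨b, t⟩
      · simp at ha
      · simp at ha
        subst ha
        exact h _ _ rfl
  have hWord : ∀ s, Word s → Pool.Agent.H447R2.MZ.Adm s := by
    intro s hs
    refine ⟨fun a ha => ?_, fun a t hst => ?_⟩
    · rcases hs a ha with h | h <;> omega
    · rcases hs a (by rw [hst]; simp) with h | h <;> omega
  have hz : ∀ s, Pool.Agent.H447R2.MZ.Adm s → zeta s = Pool.Agent.H447R2.MZ.val s := fun s hs =>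
    Pool.Agent.Q189.MV.val_tsum s hs
  have ht : trunc = Pool.Agent.Q189.MV.trunc := by
    funext s
    induction s with
    | nil => rfl
    | cons a s ih =>
      funext N
      show ∑ n ∈ Finset.range N, 1 / ((n : ℝ) + 1) ^ a * trunc s n =
        ∑ n ∈ Finset.range N, 1 / ((n : ℝ) + 1) ^ a * Pool.Agent.Q189.MV.trunc s n
      rw [ih]
  have hL : Li = Pool.Agent.Q189.MV.Lis := by
    funext s x
    rcases s with _ | ⟨a, s⟩
    · rfl
    · show ∑' n : ℕ, x ^ (n + 1) / ((n : ℝ) + 1) ^ a * trunc s n =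
        ∑' n : ℕ, x ^ (n + 1) / ((n : ℝ) + 1) ^ a * Pool.Agent.Q189.MV.trunc s n
      rw [ht]
  have hv : ∀ (n : ℕ), value n = Pool.Agent.Q189.MV.vl (1 / n) := by
    intro n
    funext p
    unfold value Pool.Agent.Q189.MV.vl
    rw [hL]
  have hU : ∀ n N : ℕ, U n N = Pool.Agent.Q189.MV.SpT (1 / n) N := by
    intro n N
    unfold U Pool.Agent.Q189.MV.SpT
    rw [hL]
    refine le_antisymm ?_ ?_
    · rw [Submodule.span_le]
      rintro _ ⟨s, t, h1, h2, h3, rfl⟩
      exact Finset.le_sup (f := Pool.Agent.Q189.MV.Spc (1 / n)) (Finset.mem_range.2 (by omega : s.sum + t.sum < N + 1))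
        (Submodule.subset_span ⟨s, t, h1, h2, rfl, rfl⟩)
    · refine Finset.sup_le fun j hj => ?_
      unfold Pool.Agent.Q189.MV.Spc
      rw [Submodule.span_le]
      rintro _ ⟨s, t, h1, h2, h3, rfl⟩
      have := Finset.mem_range.1 hj
      exact Submodule.subset_span ⟨s, t, h1, h2, by omega, rfl⟩
  have hR : ∀ N m k : ℕ, (fun m k => m + k ≤ N) m k → m + k ≤ N := fun N m k h => h
  have hli : ∀ (F : List ℕ → Prop), (∀ s, F s → Pool.Agent.H447R2.MZ.Adm s) → ∀ (N n : ℕ), 2 ≤ n →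
      (LinearIndependent ℚ (fun p : Index F N => value n p.1) ↔
        LinearIndependent ℚ fun p : Pool.Agent.Q189.MV.Fi N F (fun m k => m + k ≤ N) =>
          Pool.Agent.Q189.MV.pp (1 / n) p.1.1 * Pool.Agent.Q189.MV.V (Pool.Agent.Q189.MV.wd p.1.2) (1 - 1 / n)) := by
    intro F hF N n hn
    obtain ⟨e1, e2⟩ := Pool.Agent.Q189.MV.inv_pos_lt hn
    rw [← Pool.Agent.Q189.MV.li_iff e1 e2 hF (hR N), hv]
  have hzli : ∀ (F : List ℕ → Prop), (∀ s, F s → Pool.Agent.H447R2.MZ.Adm s) → ∀ N : ℕ,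
      (LinearIndependent ℚ (fun s : {s : List ℕ // F s ∧ s.sum ≤ N} => zeta s.1) ↔
        LinearIndependent ℚ fun s : {s : List ℕ // F s ∧ s.sum ≤ N} => Pool.Agent.H447R2.MZ.val s.1) := by
    intro F hF N
    have h1 : (fun s : {s : List ℕ // F s ∧ s.sum ≤ N} => zeta s.1) =
        fun s : {s : List ℕ // F s ∧ s.sum ≤ N} => Pool.Agent.H447R2.MZ.val s.1 := funext fun s => hz _ (hF _ s.2.1)
    rw [h1]
  have hBr : Brown → ∀ k, Pool.Agent.H447R2.MZ.Zs k ≤
      Submodule.span ℚ (Set.range fun s : {s : List ℕ // Word s ∧ s.sum = k} => Pool.Agent.H447R2.MZ.val s.1) := by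
    intro hB k
    rw [Pool.Agent.H447R2.MZ.Zs_eq, Submodule.span_le]
    rintro _ ⟨s, hs, hsk, rfl⟩
    have h1 := hB k s ((hAdm s).2 hs) hsk
    rw [hz s hs] at h1
    have h2 : (fun s : {s : List ℕ // Word s ∧ s.sum = k} => zeta s.1) =
        fun s : {s : List ℕ // Word s ∧ s.sum = k} => Pool.Agent.H447R2.MZ.val s.1 := funext fun s => hz _ (hWord _ s.2.1)
    rw [h2] at h1
    exact h1
  -- the basis at good integers
  have hbas : Brown → ∀ N n : ℕ, 3 ≤ n → Pool.Agent.Q189.MV.Ind (1 / n) N →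
      LinearIndependent ℚ (fun s : {s : List ℕ // Word s ∧ s.sum ≤ N} => zeta s.1) → BasisAt n N := by
    intro hB N n hn hi h
    obtain ⟨e1, e2⟩ := Pool.Agent.Q189.MV.inv_pos_lt (n := n) (by omega)
    rw [hzli Word hWord] at h
    obtain ⟨g1, g2⟩ := Pool.Agent.Q189.MV.basis_T hWord (hBr hB) e1 e2 hi h
    refine ⟨(hli Word hWord N n (by omega)).2 g1, ?_⟩
    rw [hU, Pool.Agent.Q189.MV.SpT_eq e1 e2, ← g2, hv]
    congr 1
    exact Pool.Agent.Q189.MV.range_eq e1 e2 hWord (hR N)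
  have hone : Brown → ∀ N n : ℕ, 2 ≤ n → LinearIndependent ℚ (fun p : Index Word N => value n p.1) →
      LinearIndependent ℚ (fun s : {s : List ℕ // Word s ∧ s.sum ≤ N} => zeta s.1) := by
    intro hB N n hn h
    obtain ⟨e1, e2⟩ := Pool.Agent.Q189.MV.inv_pos_lt hn
    rw [hli Word hWord N n hn] at h
    rw [hzli Word hWord]
    exact Pool.Agent.Q189.MV.li_of_T hWord (hBr hB) e1 e2 h
  have hcrit : Brown → ∀ N : ℕ, (LinearIndependent ℚ (fun s : {s : List ℕ // Word s ∧ s.sum ≤ N} => zeta s.1) ↔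
        ∃ n : ℕ, 2 ≤ n ∧ LinearIndependent ℚ (fun p : Index Word N => value n p.1)) := by
    intro hB N
    constructor
    · intro h
      obtain ⟨n, hn, hi⟩ := Pool.Agent.Q189.MV.exists_good N
      exact ⟨n, by omega, (hbas hB N n hn hi h).1⟩
    · rintro ⟨n, hn, h⟩
      exact hone hB N n hn h
  refine ⟨fun F hF N h => ?_, fun hB N => ⟨hcrit hB N, fun h => ?_, fun h => ?_⟩, fun hB => ⟨fun h N₀ => ?_, fun h => ⟨?_, ?_⟩⟩⟩
  · have hF' : ∀ s, F s → Pool.Agent.H447R2.MZ.Adm s := fun s hs => (hAdm s).1 (hF s hs)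
    refine Pool.Agent.Q189.MV.few_of (N := N) fun n hn hi => ?_
    obtain ⟨e1, e2⟩ := Pool.Agent.Q189.MV.inv_pos_lt (n := n) (by omega)
    rw [hli F hF' N n (by omega)]
    refine Pool.Agent.Q189.MV.li_family e1 e2 hi hF' (hR N) fun m => ?_
    rw [hzli F hF'] at h
    let e : {s : List ℕ // F s ∧ m + s.sum ≤ N} → {s : List ℕ // F s ∧ s.sum ≤ N} := fun s => ⟨s.1, s.2.1, by have := s.2.2; omega⟩
    exact h.comp e fun s t hst => Subtype.ext (by have h := congrArg Subtype.val hst; exact h)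
  · exact Pool.Agent.Q189.MV.few_of (N := N) fun n hn hi => hbas hB N n hn hi h
  · obtain ⟨C, c, hc, hf⟩ := h
    obtain ⟨n, hn, hn'⟩ := Pool.Agent.Q189.Z3.exists_of_few hc hf
    exact hone hB N n (by omega) (not_not.1 hn').1
  · obtain ⟨n, hn, h1⟩ := (hcrit hB N₀).1 (by
      let e : {s : List ℕ // Word s ∧ s.sum ≤ N₀} → {s : List ℕ // Word s} := fun s => ⟨s.1, s.2.1⟩
      exact h.1.comp e fun s t hst => Subtype.ext (by have h := congrArg Subtype.val hst; exact h))
    exact ⟨N₀, n, le_rfl, hn, h1⟩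
  · have h1 : (fun s : {s : List ℕ // Word s} => zeta s.1) = fun s : {s : List ℕ // Word s} => Pool.Agent.H447R2.MZ.val s.1 :=
      funext fun s => hz _ (hWord _ s.2)
    rw [h1]
    refine Pool.Agent.Q189.MV.li_all fun N₀ => ?_
    obtain ⟨N, n, hN, hn, h2⟩ := h N₀
    exact ⟨N, hN, (hzli Word hWord N).1 (hone hB N n hn h2)⟩
  · refine le_antisymm ?_ ?_
    · rw [Submodule.span_le]
      rintro _ ⟨s, rfl⟩
      exact Submodule.subset_span ⟨s.1, (hAdm _).2 (hWord _ s.2), rfl⟩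
    · rw [Submodule.span_le]
      rintro _ ⟨s, hs, rfl⟩
      refine Submodule.span_mono ?_ (hB s.sum s hs rfl)
      rintro _ ⟨w, rfl⟩
      exact ⟨⟨w.1, w.2.1⟩, rfl⟩

end Pool.Agent.Q138.AI.Rc2d7b4
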