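import Pool.Agent.Q189.MV.BK

/-!
# The Broadhurst-Kreimer conjecture and the values of multiple polylogarithms at `1/n` and `1 - 1/n`

Let `Li_s(x) = ∑_{n_1 > … > n_k ≥ 1} x^{n_1} / (n_1^{s_1} ⋯ n_k^{s_k})` (all `s_i ≥ 1`, weight `|s| = s_1 + ⋯ + s_k`, depth `k`). For
integers `n ≥ 2` let `Fil_r V_N(n)` be the `ℚ`-span of the products `Li_s(1 - 1/n) Li_t(1/n)` with `|s| + |t| = N` and
`(|s| - dep s) + dep t ≤ r`: the number of differential forms `dx/(1-x)` in the iterated integral from `0` to `1` through `1/n`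
(for the path from `1/n` to `1` the forms `dx/x` and `dx/(1-x)` are exchanged by `x ↦ 1 - x`).

* For all `n ≥ 2`: `Fil_r Z_N ⊆ Fil_r V_N(n)` and `dim Fil_r V_N(n) ≤ ∑_{k, j} binom(k, j) dim Fil_{r-j} Z_{N-k}`.
* For each `N` this is an equality at all but `C T^(1-c)` of the `n ≤ T`, for all weights `M ≤ N` and all `r`; hence
  `dim gr_r V_M(n) = ∑_{k, j} binom(k, j) dim gr_{r-j} Z_{M-k}`: the generating series of the depth-graded dimensions at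
  almost all integers is that of the depth-graded multiple zeta values divided by `1 - X - X Y`.
* Let `B = (1 + E Y) / (1 - O Y + S Y² - S Y⁴)`. The conjecture holds in all weights `≤ N` if and only if for all but
  `C T^(1-c)` of the `n ≤ T` the numbers `dim gr_r V_M(n)`, `M ≤ N`, are the coefficients of `B / (1 - X - X Y)`; if and only if for
  all `M ≤ N` and `r` the sum of the coefficients of `X^M Y^i`, `i ≤ r`, of this series is the greatest of the numbers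
  `dim Fil_r V_M(n)`, `n ≥ 2`.
* If the dimensions `dim Fil_r Z_k`, `k ≤ N`, are at most those predicted, then the conjecture holds in all weights
  `≤ N` if and only if for ONE `n ≥ 2` the numbers `dim Fil_r V_N(n)` have these values for all `r`.
-/

set_option autoImplicit false

open PowerSeries Module

namespace Pool.Agent.Q138.AI.Rcbe134

/-! ### Multiple zeta values and polylogarithms -/

/-- `Fil k r`: the `ℚ`-span of the multiple zeta values of weight `k` and depth at most `r`. -/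
noncomputable def Fil (k r : ℕ) : Submodule ℚ ℝ :=
  Submodule.span ℚ
    {x : ℝ | ∃ t : ℕ, t ≤ r ∧ ∃ s : Fin t → ℕ,
      (∀ i, 1 ≤ s i) ∧ (∀ h : 0 < t, 2 ≤ s ⟨0, h⟩) ∧ (∑ i, s i) = k ∧
      x = ∑' m : {m : Fin t → ℕ // StrictAnti m ∧ ∀ i, 0 < m i},
            ∏ i, (((m.1 i : ℕ) : ℝ) ^ (s i))⁻¹}

/-- the truncated sums `∑_{N ≥ n_1 > … > n_k ≥ 1} 1 / (n_1^{s_1} ⋯ n_k^{s_k})` -/
noncomputable def trunc : List ℕ → ℕ → ℝ
  | [], _ => 1
  | a :: s, N => ∑ n ∈ Finset.range N, 1 / ((n : ℝ) + 1) ^ a * trunc s n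

/-- the multiple polylogarithm `Li_s(x) = ∑_{n_1 > … > n_k ≥ 1} x^{n_1} / (n_1^{s_1} ⋯ n_k^{s_k})` -/
noncomputable def Li : List ℕ → ℝ → ℝ
  | [], _ => 1
  | a :: s, x => ∑' n : ℕ, x ^ (n + 1) / ((n : ℝ) + 1) ^ a * trunc s n

/-- `Fil_r V_N(n)`: the span of the products `Li_s(1 - 1/n) Li_t(1/n)` with `|s| + |t| = N` and
`(|s| - dep s) + dep t ≤ r` -/
noncomputable def V (n N r : ℕ) : Submodule ℚ ℝ :=
  Submodule.span ℚ {y | ∃ s t : List ℕ, (∀ a ∈ s, 1 ≤ a) ∧ (∀ a ∈ t, 1 ≤ a) ∧ s.sum + t.sum = N ∧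
    s.sum - s.length + t.length ≤ r ∧ y = Li s (1 - 1 / n) * Li t (1 / n)}

/-- the dimension of the graded piece `F_r / F_(r-1)` of a filtration, `F_(-1) = 0` -/
noncomputable def gr (F : ℕ → Submodule ℚ ℝ) : ℕ → ℕ
  | 0 => finrank ℚ (F 0)
  | r + 1 => finrank ℚ (F (r + 1) ⧸ (F r).submoduleOf (F (r + 1)))

/-! ### The series of Broadhurst and Kreimer -/

/-- the variable `Y` -/
noncomputable def Y : PowerSeries (Polynomial ℤ) := C (Polynomial.X : Polynomial ℤ)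

/-- the inverse of a power series in `X` with constant coefficient one -/
noncomputable def inv (φ : PowerSeries (Polynomial ℤ)) : PowerSeries (Polynomial ℤ) := invOfUnit φ 1

/-- `E(X) = X² / (1 - X²)` -/
noncomputable def E : PowerSeries (Polynomial ℤ) := X ^ 2 * inv (1 - X ^ 2)

/-- `O(X) = X³ / (1 - X²)` -/
noncomputable def O : PowerSeries (Polynomial ℤ) := X ^ 3 * inv (1 - X ^ 2)

/-- `S(X) = X¹² / ((1 - X⁴)(1 - X⁶))` -/
noncomputable def S : PowerSeries (Polynomial ℤ) := X ^ 12 * inv ((1 - X ^ 4) * (1 - X ^ 6))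

/-- `B = (1 + E Y) / (1 - O Y + S Y² - S Y⁴)` -/
noncomputable def B : PowerSeries (Polynomial ℤ) := (1 + E * Y) * inv (1 - O * Y + S * Y ^ 2 - S * Y ^ 4)

/-- `B / (1 - X - X Y)` -/
noncomputable def B' : PowerSeries (Polynomial ℤ) := B * inv (1 - X - X * Y)

/-- the coefficient of `X^k Y^r` -/
noncomputable def cf (A : PowerSeries (Polynomial ℤ)) (k r : ℕ) : ℤ := (coeff k A).coeff r

/-- the sum of the coefficients of `X^k Y^i`, `i ≤ r`: the predicted dimension of the step of the filtration -/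
noncomputable def cum (A : PowerSeries (Polynomial ℤ)) (k r : ℕ) : ℤ := ∑ i ∈ Finset.range (r + 1), cf A k i

/-- the conjecture in all weights at most `N` -/
def HoldsUpTo (N : ℕ) : Prop := ∀ k ≤ N, ∀ r, ((gr (Fil k) r : ℕ) : ℤ) = cf B k r

/-- the equality of the depth-graded dimensions at `n`, in all weights at most `N` -/
def HoldsAt (N n : ℕ) : Prop := ∀ M ≤ N, ∀ r, ((gr (V n M) r : ℕ) : ℤ) = cf B' M r

/-- (1) the bound for all `n`; (2) the dimensions at almost all `n`; the conjecture in all weights at most `N` (3) by almost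
all `n`, (4) by the greatest dimensions, (5) by one `n`, given the upper bounds; (6) the conjecture. -/
theorem result :
    (∀ n N r : ℕ, 2 ≤ n → Fil N r ≤ V n N r ∧ finrank ℚ (V n N r) ≤
      ∑ k ∈ Finset.range (N + 1), ∑ j ∈ Finset.range (r + 1), k.choose j * finrank ℚ (Fil (N - k) (r - j))) ∧
    (∀ N : ℕ, ∃ C c : ℝ, 0 < c ∧ ∀ T : ℕ, 1 ≤ T → (({n : ℕ | 2 ≤ n ∧ n ≤ T ∧ ¬ ∀ M ≤ N, ∀ r,
      finrank ℚ (V n M r) =
        ∑ k ∈ Finset.range (M + 1), ∑ j ∈ Finset.range (r + 1), k.choose j * finrank ℚ (Fil (M - k) (r - j)) ∧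
      gr (V n M) r =
        ∑ k ∈ Finset.range (M + 1), ∑ j ∈ Finset.range (r + 1), k.choose j * gr (Fil (M - k)) (r - j)}.ncard : ℕ) : ℝ) ≤
        C * (T : ℝ) ^ (1 - c)) ∧
    (∀ N : ℕ, HoldsUpTo N ↔ ∃ C c : ℝ, 0 < c ∧ ∀ T : ℕ, 1 ≤ T →
      (({n : ℕ | 2 ≤ n ∧ n ≤ T ∧ ¬ HoldsAt N n}.ncard : ℕ) : ℝ) ≤ C * (T : ℝ) ^ (1 - c)) ∧
    (∀ N : ℕ, HoldsUpTo N ↔ ∀ M ≤ N, ∀ r,
      IsGreatest {d : ℤ | ∃ n : ℕ, 2 ≤ n ∧ d = ((finrank ℚ (V n M r) : ℕ) : ℤ)} (cum B' M r)) ∧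
    (∀ N : ℕ, (∀ k ≤ N, ∀ r, ((finrank ℚ (Fil k r) : ℕ) : ℤ) ≤ cum B k r) →
      (HoldsUpTo N ↔ ∃ n : ℕ, 2 ≤ n ∧ ∀ r, ((finrank ℚ (V n N r) : ℕ) : ℤ) = cum B' N r)) ∧
    ((∀ k r : ℕ, ((gr (Fil k) r : ℕ) : ℤ) = cf B k r) ↔ ∀ N : ℕ, ∃ C c : ℝ, 0 < c ∧ ∀ T : ℕ, 1 ≤ T →
      (({n : ℕ | 2 ≤ n ∧ n ≤ T ∧ ¬ HoldsAt N n}.ncard : ℕ) : ℝ) ≤ C * (T : ℝ) ^ (1 - c)) ∧
    ((∀ k r : ℕ, ((gr (Fil k) r : ℕ) : ℤ) = cf B k r) ↔ ∀ M r : ℕ,
      IsGreatest {d : ℤ | ∃ n : ℕ, 2 ≤ n ∧ d = ((finrank ℚ (V n M r) : ℕ) : ℤ)} (cum B' M r)) := by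
  have hF : Fil = Pool.Agent.Q189.MV.Zd := by
    funext k r
    exact Pool.Agent.Q189.MV.Fil_eq k r
  have ht : trunc = Pool.Agent.Q189.MV.trunc := by
    funext s
    induction s with
    | nil => rfl
    | cons a s ih =>
      funext N
      show ∑ n ∈ Finset.range N, 1 / ((n : ℝ) + 1) ^ a * trunc s n =
        ∑ n ∈ Finset.range N, 1 / ((n : ℝ) + 1) ^ a * Pool.Agent.Q189.MV.trunc s n
      rw [ih]
  have hL : Li = Pool.Agent.Q189.MV.Lis := by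
    funext s x
    rcases s with _ | ⟨a, s⟩
    · rfl
    · show ∑' n : ℕ, x ^ (n + 1) / ((n : ℝ) + 1) ^ a * trunc s n =
        ∑' n : ℕ, x ^ (n + 1) / ((n : ℝ) + 1) ^ a * Pool.Agent.Q189.MV.trunc s n
      rw [ht]
  have hV : ∀ n : ℕ, 2 ≤ n → V n = Pool.Agent.Q189.MV.VD (1 / n) := by
    intro n hn
    funext N r
    obtain ⟨h1, h2⟩ := Pool.Agent.Q189.MV.inv_pos_lt hn
    rw [← Pool.Agent.Q189.MV.Spd_eq h1 h2]
    unfold V Pool.Agent.Q189.MV.Spd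
    rw [hL]
  have hg : gr = Pool.Agent.Q189.MV.grdim := by
    funext F r
    rcases r with _ | r <;> rfl
  -- the series
  have hinv : inv (1 - X - X * Y) = Pool.Agent.Q189.MV.Gs := by
    have h1 : (1 - X - X * Y) * inv (1 - X - X * Y) = 1 := by
      unfold inv
      refine mul_invOfUnit _ 1 ?_
      simp
    have h2 : (1 - X - X * Y) * Pool.Agent.Q189.MV.Gs = 1 := Pool.Agent.Q189.MV.Gs_mul
    calc inv (1 - X - X * Y) = inv (1 - X - X * Y) * ((1 - X - X * Y) * Pool.Agent.Q189.MV.Gs) := by rw [h2, mul_one]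
      _ = (1 - X - X * Y) * inv (1 - X - X * Y) * Pool.Agent.Q189.MV.Gs := by ring
      _ = Pool.Agent.Q189.MV.Gs := by rw [h1, one_mul]
  have hB' : ∀ M r, cf B' M r = Pool.Agent.Q189.MV.cvz (cf B) M r := by
    intro M r
    unfold B'
    rw [hinv]
    exact Pool.Agent.Q189.MV.cf_mul_Gs B M r
  have hcum : ∀ M r, cum B' M r = ∑ i ∈ Finset.range (r + 1), Pool.Agent.Q189.MV.cvz (cf B) M i := by
    intro M r
    unfold cum
    exact Finset.sum_congr rfl fun i _ => hB' M i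
  have hup : ∀ N, HoldsUpTo N ↔ ∀ k ≤ N, ∀ r, ((Pool.Agent.Q189.MV.grdim (Pool.Agent.Q189.MV.Zd k) r : ℕ) : ℤ) = cf B k r := by
    intro N
    unfold HoldsUpTo
    rw [hF, hg]
  have hat : ∀ N n, 2 ≤ n → (HoldsAt N n ↔ ∀ M ≤ N, ∀ r,
      ((Pool.Agent.Q189.MV.grdim (Pool.Agent.Q189.MV.VD (1 / n) M) r : ℕ) : ℤ) = Pool.Agent.Q189.MV.cvz (cf B) M r) := by
    intro N n hn
    unfold HoldsAt
    rw [hV n hn, hg]
    simp only [hB']
  have few : ∀ N, HoldsUpTo N ↔ ∃ C c : ℝ, 0 < c ∧ ∀ T : ℕ, 1 ≤ T →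
      (({n : ℕ | 2 ≤ n ∧ n ≤ T ∧ ¬ HoldsAt N n}.ncard : ℕ) : ℝ) ≤ C * (T : ℝ) ^ (1 - c) := by
    intro N
    rw [hup, Pool.Agent.Q189.MV.bk_few]
    have h1 : ∀ T : ℕ, {n : ℕ | 2 ≤ n ∧ n ≤ T ∧ ¬ HoldsAt N n} = {n : ℕ | 2 ≤ n ∧ n ≤ T ∧ ¬ ∀ M ≤ N, ∀ r,
        ((Pool.Agent.Q189.MV.grdim (Pool.Agent.Q189.MV.VD (1 / n) M) r : ℕ) : ℤ) = Pool.Agent.Q189.MV.cvz (cf B) M r} := by
      intro T
      ext n
      constructor
      · rintro ⟨h1, h2, h3⟩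
        exact ⟨h1, h2, fun h4 => h3 ((hat N n h1).2 h4)⟩
      · rintro ⟨h1, h2, h3⟩
        exact ⟨h1, h2, fun h4 => h3 ((hat N n h1).1 h4)⟩
    simp only [h1]
  have hset : ∀ M r, {d : ℤ | ∃ n : ℕ, 2 ≤ n ∧ d = ((finrank ℚ (V n M r) : ℕ) : ℤ)} =
      {d : ℤ | ∃ n : ℕ, 2 ≤ n ∧ d = ((finrank ℚ (Pool.Agent.Q189.MV.VD (1 / n) M r) : ℕ) : ℤ)} := by
    intro M r
    ext d
    constructor
    · rintro ⟨n, hn, rfl⟩
      exact ⟨n, hn, by rw [hV n hn]⟩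
    · rintro ⟨n, hn, rfl⟩
      exact ⟨n, hn, by rw [hV n hn]⟩
  have max : ∀ N, HoldsUpTo N ↔ ∀ M ≤ N, ∀ r,
      IsGreatest {d : ℤ | ∃ n : ℕ, 2 ≤ n ∧ d = ((finrank ℚ (V n M r) : ℕ) : ℤ)} (cum B' M r) := by
    intro N
    rw [hup, Pool.Agent.Q189.MV.bk_max]
    simp only [hset, hcum]
  refine ⟨fun n N r hn => ?_, fun N => ?_, few, max, fun N hub => ?_, ?_, ?_⟩
  · obtain ⟨h1, h2⟩ := Pool.Agent.Q189.MV.inv_pos_lt hn
    rw [hV n hn, hF]
    exact ⟨Pool.Agent.Q189.MV.Zd_le_VD h1 h2 N r, Pool.Agent.Q189.MV.finrank_VD_le h1 h2 N r⟩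
  · obtain ⟨C, c, hc, hf⟩ := Pool.Agent.Q189.MV.dimsD N
    refine ⟨C, c, hc, fun T hT => ?_⟩
    refine le_trans (Nat.cast_le.2 (Set.ncard_le_ncard ?_ ((Set.finite_le_nat T).subset fun n hn => hn.2.1))) (hf T hT)
    rintro n ⟨h1, h2, h3⟩
    refine ⟨h1, h2, fun h4 => h3 fun M hM r => ?_⟩
    rw [hV n h1, hF, hg]
    refine ⟨h4 M hM r, ?_⟩
    have h5 := Pool.Agent.Q189.MV.grV h4 hM r
    unfold Pool.Agent.Q189.MV.cvz at h5
    beta_reduce at h5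
    exact_mod_cast h5
  · rw [hup]
    rw [Pool.Agent.Q189.MV.bk_one (cf B) N (by rw [hF] at hub; exact hub)]
    constructor
    · rintro ⟨n, hn, h⟩
      exact ⟨n, hn, fun r => by rw [hV n hn, hcum]; exact h r⟩
    · rintro ⟨n, hn, h⟩
      exact ⟨n, hn, fun r => by rw [← hV n hn, ← hcum]; exact h r⟩
  · constructor
    · intro h N
      exact (few N).1 fun k _ r => h k r
    · intro h k r
      exact (few k).2 (h k) k le_rfl r
  · constructor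
    · intro h M r
      exact (max M).1 (fun k _ r => h k r) M le_rfl r
    · intro h k r
      exact (max k).2 (fun M _ r => h M r) k le_rfl r

end Pool.Agent.Q138.AI.Rcbe134
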