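import Mathlib
import Pool.Agent.Q271.TP.Number
import Pool.Agent.Results.MP_d87173_nt.DegreeFreeUniformity

/-!
# Uniform surjectivity in all one-parameter families, for almost all rational parameters over `ℚ` and
# over all number fields of bounded degree, and over all their extensions of small root discriminant

Let `K` be a number field, for example `ℚ`, and `j = F/G` a nonconstant rational function over `K`, `F`
and `G` coprime, `D = max(deg F, deg G)`. There is `A` such that for all `n`, `θ ≥ 0`, `κ ≥ 0` and `ε > 0`
there is `C` with the following property. Let `L` be ANY extension of `K` of degree at most `n` over `ℚ`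
(for `K = ℚ` and `n = 1` this is `L = ℚ`), and `X ≥ 1`. For all `t ∈ L` of (relative, multiplicative)
height at most `X` (there are about `X ^ 2`), except for at most `C * X ^ (1 + D (θ + κ) + ε)` of them,
`j(t)` is finite and over ALL finite extensions `M` of `L`, of whatever degree, with root discriminant
`δ_M ≤ δ_L * H(j(t)) ^ κ`, for all elliptic curves `E` over `M` of invariant `j(t)` and for ALL primes
`p ≥ 5` with `p ≥ 3 / θ`, the image of `Gal(M̄/M)` in `Aut(E[p])` contains `SL₂(𝔽_p)`. If `F/G` has at
least two different poles on the projective line over the algebraic closure, there are at most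
`C * X ^ (A (θ + κ) + ε)` exceptions.

Over `M = ℚ`, where the determinant is surjective, this is the surjectivity of the representation mod `p`
for all these `p` at once.

Proof: the image contains `SL₂(𝔽_p)` for these `p` if the finite poles of `j(t)` have a product of norms
of at least `H(j(t)) ^ (θ + κ + η)` (`DegreeFreeUniformity`). If it is smaller, the number `G(t)` (or
`t`, if `G` is constant), respectively the number `(t - π) / (t - ρ)` for two poles `π`, `ρ`, is
supported on a set of primes of small total weight, up to the poles of `t` in the first case; the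
number of such elements of bounded height is bounded uniformly in the field (helper673,
`Pool.Agent.Y673.Cnt`).
-/

set_option autoImplicit false

namespace Pool.Agent.Q138.AI.Rcda23d

open NumberField IsDedekindDomain Polynomial
open Pool.Agent.Results.MP_d87173_nt.DegreeFreeUniformity

/-- The exceptional parameters: the `t ∈ L` of relative height at most `X` such that `G(t) = 0` or, for
`j = F(t)/G(t)`, the image does not contain `SL₂(𝔽_p)` for some prime `p ≥ 5`, `p ≥ 3 / θ`, and some
elliptic curve of invariant `j` over some extension of `L` with root discriminant at most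
`δ_L * H(j) ^ κ`. -/
def Exceptional {K : Type} [Field K] (F G : K[X]) (L : Type) [Field L] [NumberField L]
    [Algebra K L] (θ κ X : ℝ) : Set L :=
  {t | Height.mulHeight₁ t ≤ X ∧ ¬ ((G.map (algebraMap K L)).eval t ≠ 0 ∧
    InExtensions κ θ ((F.map (algebraMap K L)).eval t / (G.map (algebraMap K L)).eval t))}

/-- `F/G` has at least two different poles on the projective line over the algebraic closure. -/
def TwoPoles (K : Type) [Field K] (F G : K[X]) : Prop :=
  (∃ x y : AlgebraicClosure K, x ≠ y ∧ aeval x G = 0 ∧ aeval y G = 0) ∨
    (0 < G.natDegree ∧ G.natDegree < F.natDegree)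

/-- **Main theorem.**
(1) The number of the exceptional parameters, for every nonconstant rational function `F/G`, in all
fields of bounded degree, without and with the condition that there are two poles.
(2) The number of all parameters. -/
theorem result :
    (∀ (K : Type) [Field K] [NumberField K] (F G : K[X]), IsCoprime F G → G ≠ 0 →
      (0 < F.natDegree ∨ 0 < G.natDegree) → ∃ A : ℝ, 0 < A ∧
      ∀ (n : ℕ) (θ κ ε : ℝ), 0 ≤ θ → 0 ≤ κ → 0 < ε → ∃ C : ℝ, 0 < C ∧
        ∀ (L : Type) [Field L] [NumberField L] [Algebra K L], Module.finrank ℚ L ≤ n →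
          ∀ X : ℝ, 1 ≤ X → (Exceptional F G L θ κ X).Finite ∧
            ((Exceptional F G L θ κ X).ncard : ℝ) ≤
              C * X ^ (1 + (max F.natDegree G.natDegree : ℕ) * (θ + κ) + ε) ∧
            (TwoPoles K F G →
              ((Exceptional F G L θ κ X).ncard : ℝ) ≤ C * X ^ (A * (θ + κ) + ε))) ∧
    (∀ ε : ℝ, 0 < ε → ∃ C : ℝ, 0 < C ∧
      ∀ (L : Type) [Field L] [NumberField L] (B : ℝ), 16 * √(rootDisc L) ≤ B →
        (C⁻¹ * B ^ (2 - ε) * rootDisc L ^ (-(2 + ε))) ^ Module.finrank ℚ L ≤
          (({t : L | Height.mulHeight₁ t ≤ B ^ Module.finrank ℚ L} : Set L).ncard : ℝ)) := by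
  refine ⟨?_, fun ε hε => Pool.Agent.Q271.TP.params_lower hε⟩
  intro K _ _ F G hFG hG hne
  obtain ⟨A, hA, h⟩ := Pool.Agent.Q271.TP.family_count K F G hFG hG hne
  refine ⟨A, hA, fun n θ κ ε hθ hκ hε => ?_⟩
  obtain ⟨C₀, hC₀, hLS⟩ := part_two
  set D : ℕ := max F.natDegree G.natDegree with hD
  set η : ℝ := ε / (2 * (D + A)) with hη
  have hDA : 0 < (D : ℝ) + A := by positivity
  have hη0 : 0 < η := by positivity
  have hDη : D * η ≤ ε / 2 := by
    rw [hη, mul_div_assoc', div_le_div_iff₀ (by positivity) (by norm_num)]
    nlinarith
  have hAη : A * η ≤ ε / 2 := by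
    rw [hη, mul_div_assoc', div_le_div_iff₀ (by positivity) (by norm_num)]
    have : (0 : ℝ) ≤ D * ε := by positivity
    nlinarith
  obtain ⟨C, hC, h2⟩ := h n (θ + κ + η) (ε / 2) (C₀ / η + 1) (by positivity) (by positivity)
  refine ⟨C, hC, fun L _ _ _ hL X hX => ?_⟩
  have hn : (0 : ℝ) < Module.finrank ℚ L := by exact_mod_cast Module.finrank_pos
  obtain ⟨f1, f2, f3⟩ := h2 L hL (fun j => InExtensions κ θ j) (by
    intro j h0 h1 hf hh
    refine hLS θ κ η hη0 L j ?_ ?_
    · rw [poleCount_eq]
      exact hf
    · unfold absH
      rw [lt_div_iff₀ hn]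
      nlinarith) X hX
  have hX0 : (0 : ℝ) < X := by linarith
  refine ⟨f1, f2.trans ?_, fun hT => (f3 hT).trans ?_⟩
  · refine mul_le_mul_of_nonneg_left (Real.rpow_le_rpow_of_exponent_le hX ?_) hC.le
    nlinarith
  · refine mul_le_mul_of_nonneg_left (Real.rpow_le_rpow_of_exponent_le hX ?_) hC.le
    nlinarith

end Pool.Agent.Q138.AI.Rcda23d
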