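import Pool.Agent.Q189.MV.Niel4

/-!
# `ζ(9)` and the truncated integrals at the points `1/n`

By `ζ(9) = (1/8!) ∫_0^1 log(1/v)^8 / (1-v) dv`, each integer `n ≥ 2` gives a decomposition of `ζ(9)` into the truncated integral
`I(n) = (1/8!) ∫_{1/n}^1 log(1/v)^8 / (1-v) dv` and the rational combination `∑_i q_i(n) / i!` of the nine products
`q_i(n) = log(n)^i Li_{9-i}(1/n)`, `0 ≤ i ≤ 8`. We prove that at almost all integers `n` this is the ONLY relation between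
these ten numbers, over each finitely generated space of coefficients, with a measure, and deduce criteria for the
irrationality and the transcendence of `ζ(9)` which only use ONE integer `n`:

* `ζ(9)` is irrational if and only if for ONE integer `n ≥ 2` the number `I(n)` is not a rational combination of `1` and the
  nine products; in this case this holds for all integers `n ≤ T` but `C T ^ (1 - c)`;
* the same for `ζ(9) ∉ K`, for each finite-dimensional rational space `K` of complex numbers with `1 ∈ K`, in place of `ℚ`; so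
  `ζ(9)` is transcendental if and only if for each number field `K` there is one `n ≥ 2` such that `I(n)` is not in
  `K + ∑ K q_i(n)`;
* without any hypothesis: for any complex numbers `θ_1, …, θ_g` with rational span `K`, for all integers `n` in `[2, T]` but
  `C T ^ (1 - c)` (`C`, `c > 0` depend only on `g`), the only relations `a I(n) + κ + ∑ c_i q_i(n) = 0` with coefficients in `K`
  are those with `κ = -a ζ(9)` and `i! c_i = a` for all `i`. So `I(n)` is not in `K + ∑_{i ≠ j} K q_i(n)` for any `j`,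
  and the ten numbers `1, q_0(n), …, q_8(n)` are independent over `K`, even if `K` contains `ζ(9)`;
* near relations: at the same kind of integers `n` and for almost all heights `H`, for all integral combinations `a, κ, c_i` of
  the `θ_l` with coefficients at most `H`, the numbers `|κ + a ζ(9)|` and `|i! c_i - a|` are at most
  `H ^ B |a I(n) + κ + ∑ c_i q_i(n)|`. So each small linear form in the ten numbers and `1` at `n` comes from a small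
  linear form in `1` and `ζ(9)`.
-/

set_option autoImplicit false

namespace Pool.Agent.Q138.AI.Rdb0fbf

/-- `ζ(9)` -/
noncomputable def zeta9 : ℝ := ∑' n : ℕ, (1 : ℝ) / ((n : ℝ) + 1) ^ 9

/-- the polylogarithm `Li_s(x) = ∑ x ^ m / m ^ s` -/
noncomputable def Li (s : ℕ) (x : ℝ) : ℝ := ∑' m : ℕ, x ^ (m + 1) / ((m : ℝ) + 1) ^ s

/-- the truncated integral -/
noncomputable def I (n : ℕ) : ℝ := (∫ v in (1 / (n : ℝ))..1, Real.log (1 / v) ^ 8 / (1 - v)) / (Nat.factorial 8 : ℝ)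

/-- the products -/
noncomputable def q (n i : ℕ) : ℝ := Real.log n ^ i * Li (9 - i) (1 / n)

/-- the linear form in the truncated integral, `1` and the products -/
noncomputable def form (a κ : ℂ) (c : ℕ → ℂ) (n : ℕ) : ℂ :=
  a * ((I n : ℝ) : ℂ) + κ + ∑ i ∈ Finset.range 9, c i * ((q n i : ℝ) : ℂ)

/-- the truncated integral is a rational combination of `1` and the products -/
def RationalRelation (n : ℕ) : Prop :=
  ∃ (κ : ℚ) (c : ℕ → ℚ), I n = κ + ∑ i ∈ Finset.range 9, (c i : ℝ) * q n i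

/-- the truncated integral is a combination of `1` and the products with coefficients in `K` -/
def Inside (K : Submodule ℚ ℂ) (n : ℕ) : Prop :=
  ∃ (κ : ℂ) (c : ℕ → ℂ), κ ∈ K ∧ (∀ i, c i ∈ K) ∧ ((I n : ℝ) : ℂ) = κ + ∑ i ∈ Finset.range 9, c i * ((q n i : ℝ) : ℂ)

/-- the only relations over `K` are the multiples of the decomposition of `ζ(9)` -/
def OnlyRelation (K : Submodule ℚ ℂ) (n : ℕ) : Prop :=
  ∀ (a κ : ℂ) (c : ℕ → ℂ), a ∈ K → κ ∈ K → (∀ i, c i ∈ K) → form a κ c n = 0 →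
    κ = -(a * ((zeta9 : ℝ) : ℂ)) ∧ ∀ i < 9, (Nat.factorial i : ℂ) * c i = a

/-- the integral combinations of the `θ_l` with coefficients at most `H` -/
def Comb {g : ℕ} (θ : Fin g → ℂ) (H : ℝ) : Set ℂ :=
  {r | ∃ a : Fin g → ℤ, (∀ l, |((a l : ℤ) : ℝ)| ≤ H) ∧ r = ∑ l, (a l : ℂ) * θ l}

/-- small forms at the height `H` come from small forms in `1` and `ζ(9)` -/
def Good {g : ℕ} (B : ℕ) (θ : Fin g → ℂ) (n : ℕ) (H : ℝ) : Prop :=
  ∀ (a κ : ℂ) (c : ℕ → ℂ), a ∈ Comb θ H → κ ∈ Comb θ H → (∀ i, c i ∈ Comb θ H) →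
    ‖κ + a * ((zeta9 : ℝ) : ℂ)‖ ≤ H ^ B * ‖form a κ c n‖ ∧
    ∀ i < 9, ‖(Nat.factorial i : ℂ) * c i - a‖ ≤ H ^ B * ‖form a κ c n‖

/-- (1) the decomposition; (2) the criteria for irrationality; (3) the criteria for spaces of coefficients and for transcendence;
(4) the only relations at almost all integers; (5) near relations. -/
theorem result :
    (∀ n : ℕ, 2 ≤ n → zeta9 = I n + ∑ i ∈ Finset.range 9, 1 / (Nat.factorial i : ℝ) * q n i) ∧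
    ((Irrational zeta9 ↔ ∃ n : ℕ, 2 ≤ n ∧ ¬ RationalRelation n) ∧
      (Irrational zeta9 ↔ ∃ C c : ℝ, 0 < c ∧ ∀ T : ℕ, 1 ≤ T →
        (({n : ℕ | 2 ≤ n ∧ n ≤ T ∧ RationalRelation n}.ncard : ℕ) : ℝ) ≤ C * (T : ℝ) ^ (1 - c))) ∧
    ((∀ K : Submodule ℚ ℂ, K.FG → (1 : ℂ) ∈ K →
      (((zeta9 : ℝ) : ℂ) ∉ K ↔ ∃ n : ℕ, 2 ≤ n ∧ ¬ Inside K n) ∧
      (((zeta9 : ℝ) : ℂ) ∉ K ↔ ∃ C c : ℝ, 0 < c ∧ ∀ T : ℕ, 1 ≤ T →
        (({n : ℕ | 2 ≤ n ∧ n ≤ T ∧ Inside K n}.ncard : ℕ) : ℝ) ≤ C * (T : ℝ) ^ (1 - c))) ∧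
      (Transcendental ℚ zeta9 ↔ ∀ K : IntermediateField ℚ ℂ, FiniteDimensional ℚ K →
        ∃ n : ℕ, 2 ≤ n ∧ ¬ Inside (Subalgebra.toSubmodule K.toSubalgebra) n)) ∧
    (∀ g : ℕ, ∃ C c : ℝ, 0 < c ∧ ∀ θ : Fin g → ℂ, ∀ T : ℕ, 1 ≤ T →
      (({n : ℕ | 2 ≤ n ∧ n ≤ T ∧ ¬ OnlyRelation (Submodule.span ℚ (Set.range θ)) n}.ncard : ℕ) : ℝ) ≤
        C * (T : ℝ) ^ (1 - c)) ∧
    ∀ g : ℕ, ∃ (B : ℕ) (C c : ℝ), 0 < c ∧ ∀ T : ℕ, 1 ≤ T →
      (∃ H₀ : ℝ, ∀ H₁ : ℝ, H₀ ≤ H₁ → ∀ θ : Fin g → ℂ,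
        (({n : ℕ | 2 ≤ n ∧ n ≤ T ∧ ¬ ∀ H : ℝ, H₁ ≤ H → H ≤ H₁ ^ Real.exp ((T : ℝ) ^ c) → Good B θ n H}.ncard : ℕ) : ℝ) ≤
          C * (T : ℝ) ^ (1 - c)) ∧
      ∀ θ : Fin g → ℂ, (({n : ℕ | 2 ≤ n ∧ n ≤ T ∧ ¬ ∀ N₀ : ℕ, ∃ N, N₀ ≤ N ∧
        (({s : ℕ | s < N ∧ ¬ ∀ H : ℝ, 2 ^ (2 ^ s) ≤ H → H ≤ 2 ^ (2 ^ (s + 1)) → Good B θ n H}.ncard : ℕ) : ℝ) ≤
            (T : ℝ) ^ (-c) * N}.ncard : ℕ) : ℝ) ≤ C * (T : ℝ) ^ (1 - c) := by
  have hz : zeta9 = Pool.Agent.Q189.MV.ze 9 := rfl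
  have hI : ∀ n : ℕ, 2 ≤ n → I n = Pool.Agent.Q189.MV.Inn 9 (1 / n) := by
    intro n hn
    obtain ⟨h1, h2⟩ := Pool.Agent.Q189.MV.inv_pos_lt hn
    exact (Pool.Agent.Q189.MV.Inn_int (N := 9) h1 h2 (by norm_num)).symm
  have hq : ∀ n i : ℕ, i < 9 → q n i = Real.log n ^ i * Pool.Agent.Q189.MV.Lv (9 - i) (1 / n) := by
    intro n i hi
    obtain ⟨j, hj⟩ : ∃ j, 9 - i = j + 1 := ⟨8 - i, by omega⟩
    unfold q
    rw [hj]
    rfl
  have hf : ∀ (a κ : ℂ) (c : ℕ → ℂ) (n : ℕ), 2 ≤ n → form a κ c n = Pool.Agent.Q189.MV.L1 9 a κ c n := by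
    intro a κ c n hn
    unfold form Pool.Agent.Q189.MV.L1
    rw [hI n hn]
    have e : ∑ i ∈ Finset.range 9, c i * ((q n i : ℝ) : ℂ) =
        ∑ i ∈ Finset.range 9, c i * ((Real.log n ^ i * Pool.Agent.Q189.MV.Lv (9 - i) (1 / n) : ℝ) : ℂ) :=
      Finset.sum_congr rfl fun i hi => by rw [hq n i (Finset.mem_range.1 hi)]
    rw [e]
  have hR : ∀ n : ℕ, 2 ≤ n → (RationalRelation n ↔ Pool.Agent.Q189.MV.Rat1 9 n) := by
    intro n hn
    unfold RationalRelation Pool.Agent.Q189.MV.Rat1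
    rw [hI n hn]
    refine exists_congr fun κ => exists_congr fun c => ?_
    rw [Finset.sum_congr rfl (g := fun i => (c i : ℝ) * (Real.log n ^ i * Pool.Agent.Q189.MV.Lv (9 - i) (1 / n)))
      (fun i hi => by rw [hq n i (Finset.mem_range.1 hi)])]
  have hIn : ∀ (K : Submodule ℚ ℂ) (n : ℕ), 2 ≤ n → (Inside K n ↔ Pool.Agent.Q189.MV.In1 9 K n) := by
    intro K n hn
    unfold Inside Pool.Agent.Q189.MV.In1
    rw [hI n hn]
    refine exists_congr fun κ => exists_congr fun c => ?_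
    rw [Finset.sum_congr rfl (g := fun i => c i * ((Real.log n ^ i * Pool.Agent.Q189.MV.Lv (9 - i) (1 / n) : ℝ) : ℂ))
      (fun i hi => by rw [hq n i (Finset.mem_range.1 hi)])]
  have set_congr : ∀ (A A' : ℕ → Prop) (T : ℕ), (∀ n, 2 ≤ n → (A n ↔ A' n)) →
      {n : ℕ | 2 ≤ n ∧ n ≤ T ∧ A n} = {n : ℕ | 2 ≤ n ∧ n ≤ T ∧ A' n} := by
    intro A A' T h
    ext n
    constructor
    · rintro ⟨h1, h2, h3⟩
      exact ⟨h1, h2, (h n h1).1 h3⟩
    · rintro ⟨h1, h2, h3⟩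
      exact ⟨h1, h2, (h n h1).2 h3⟩
  have hex : ∀ A A' : ℕ → Prop, (∀ n, 2 ≤ n → (A n ↔ A' n)) → ((∃ n : ℕ, 2 ≤ n ∧ ¬ A n) ↔ ∃ n : ℕ, 2 ≤ n ∧ ¬ A' n) := by
    intro A A' h
    constructor
    · rintro ⟨n, h1, h2⟩
      exact ⟨n, h1, fun h3 => h2 ((h n h1).2 h3)⟩
    · rintro ⟨n, h1, h2⟩
      exact ⟨n, h1, fun h3 => h2 ((h n h1).1 h3)⟩
  have hGd : ∀ {g : ℕ} (B : ℕ) (θ : Fin g → ℂ) (n : ℕ) (H : ℝ), 2 ≤ n → (Good B θ n H ↔ Pool.Agent.Q189.MV.G1 9 B θ n H) := by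
    intro g B θ n H hn
    unfold Good Pool.Agent.Q189.MV.G1
    rw [hz]
    refine forall_congr' fun a => forall_congr' fun κ => forall_congr' fun c => ?_
    rw [hf a κ c n hn]
    exact Iff.rfl
  refine ⟨fun n hn => ?_, ?_, ⟨fun K hK h1 => ?_, ?_⟩, fun g => ?_, fun g => ?_⟩
  · rw [hI n hn, Pool.Agent.Q189.MV.Inn_eq hn (by norm_num), hz]
    have e : ∑ i ∈ Finset.range 9, 1 / (Nat.factorial i : ℝ) * q n i =
        ∑ i ∈ Finset.range 9, 1 / (Nat.factorial i : ℝ) * (Real.log n ^ i * Pool.Agent.Q189.MV.Lv (9 - i) (1 / n)) :=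
      Finset.sum_congr rfl fun i hi => by rw [hq n i (Finset.mem_range.1 hi)]
    rw [e]
    ring
  · obtain ⟨h1, h2⟩ := Pool.Agent.Q189.MV.crit_rat (N := 9) (by norm_num)
    rw [hz]
    refine ⟨h1.trans (hex _ _ hR).symm, ?_⟩
    simp only [fun T => set_congr _ _ T hR]
    exact h2
  · obtain ⟨e1, e2⟩ := Pool.Agent.Q189.MV.crit_space (N := 9) (by norm_num) hK h1
    rw [hz]
    refine ⟨e1.trans (hex _ _ (hIn K)).symm, ?_⟩
    simp only [fun T => set_congr _ _ T (hIn K)]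
    exact e2
  · rw [hz, Pool.Agent.Q189.MV.crit_trans (N := 9) (by norm_num)]
    refine forall_congr' fun K => forall_congr' fun _ => (hex _ _ (hIn _)).symm
  · obtain ⟨C, c, hc, h⟩ := Pool.Agent.Q189.MV.few_Ex 9 g
    refine ⟨C, c, hc, fun θ T hT => ?_⟩
    refine le_trans (Nat.cast_le.2 (Set.ncard_le_ncard ?_ ((Set.finite_le_nat T).subset fun n hn => hn.2.1))) (h θ T hT)
    rintro n ⟨h1, h2, h3⟩
    refine ⟨h1, h2, fun h4 => h3 fun a κ c' ha hκ hc' h0 => ?_⟩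
    rw [hf a κ c' n h1] at h0
    exact Pool.Agent.Q189.MV.E1_of (by norm_num) h4 a κ c' ha hκ hc' h0
  · obtain ⟨B, C, c, hc, h⟩ := Pool.Agent.Q189.MV.main1 (N := 9) (by norm_num) g
    refine ⟨B, C, c, hc, fun T hT => ?_⟩
    obtain ⟨⟨H₀, h1⟩, h2⟩ := h T hT
    refine ⟨⟨H₀, fun H₁ hH₁ θ => ?_⟩, fun θ => ?_⟩
    · refine le_trans (Nat.cast_le.2 (Set.ncard_le_ncard ?_ ((Set.finite_le_nat T).subset fun n hn => hn.2.1))) (h1 H₁ hH₁ θ)
      rintro n ⟨e1, e2, e3⟩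
      exact ⟨e1, e2, fun e4 => e3 fun H ha hb => (hGd B θ n H e1).2 (e4 H ha hb)⟩
    · refine le_trans (Nat.cast_le.2 (Set.ncard_le_ncard ?_ ((Set.finite_le_nat T).subset fun n hn => hn.2.1))) (h2 θ)
      rintro n ⟨e1, e2, e3⟩
      refine ⟨e1, e2, fun e4 => e3 fun N₀ => ?_⟩
      obtain ⟨N, hN, hbad⟩ := e4 N₀
      refine ⟨N, hN, le_trans (Nat.cast_le.2 (Set.ncard_le_ncard ?_ ((Set.finite_lt_nat N).subset fun j hj => hj.1))) hbad⟩
      rintro j ⟨hj, hj'⟩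
      exact ⟨hj, fun hcon => hj' fun H ha hb => (hGd B θ n H e1).2 (hcon H ha hb)⟩

end Pool.Agent.Q138.AI.Rdb0fbf
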