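import Pool.Agent.Q189.MV.Lin3b

/-!
# `ζ(3)/π³` and linear independence of `π³` and three values of the single-valued trilogarithm

Let `L(x) = Li_3(x) - log |x| Li_2(x) + (1/3) log² |x| Li_1(x)` be the single-valued trilogarithm on `-1 < x < 1`. The known
identity `L(1/n) + L(1 - 1/n) + L(1/(1-n)) = ζ(3)`, `n ≥ 3`, shows that the four numbers `π³`, `L(1/n)`, `L(1 - 1/n)`,
`L(1/(1-n))` are linearly dependent over the rational numbers for ALL `n` if `ζ(3)/π³` is rational. We prove the converse,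
and ONE `n` is enough:

* `ζ(3)/π³` is irrational if and only if for ONE integer `n ≥ 3` the four numbers are linearly independent over `ℚ`; in this case
  they are for all `n ≤ T` but `C T ^ (1 - c)`;
* `ζ(3)/π³` is transcendental if and only if for each number field `K` in `ℂ` there is one `n ≥ 3` such that the four numbers
  are linearly independent over `K`; again this holds then for almost all `n`;
* without any hypothesis, for arbitrary complex numbers `θ_1, …, θ_g` (for instance `π³` times a basis of a number field, and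
  this basis) with rational span `K`, for all `n ≤ T` but `C T ^ (1 - c)` (`C`, `c > 0` depend only on `g`): the relations
  `β_0 L(1/n) + β_1 L(1 - 1/n) + β_2 L(1/(1-n)) + κ = 0` with coefficients in `K` have `β_0 = β_1 = β_2` and `κ = -β_2 ζ(3)`. So
  `π³`, `L(1/n)`, `L(1 - 1/n)` are linearly independent over each number field for almost all `n`;
* near relations: at such `n`, for almost all heights `H` and coefficients which are integral combinations of the `θ_l` with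
  coefficients at most `H`, the numbers `|κ + β_2 ζ(3)|`, `|β_0 - β_2|`, `|β_1 - β_2|` are at most `H ^ B` times the absolute value
  of the form. With `θ = (π³, 1)` this transfers each measure of irrationality of `ζ(3)/π³` to the four numbers.
-/

set_option autoImplicit false

namespace Pool.Agent.Q138.AI.Re47f08

/-- `ζ(3)` -/
noncomputable def zeta3 : ℝ := ∑' n : ℕ, (1 : ℝ) / ((n : ℝ) + 1) ^ 3

/-- the polylogarithm `Li_s(x) = ∑ x ^ m / m ^ s` -/
noncomputable def Li (s : ℕ) (x : ℝ) : ℝ := ∑' m : ℕ, x ^ (m + 1) / ((m : ℝ) + 1) ^ s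

/-- the single-valued trilogarithm for `-1 < x < 1`, `x ≠ 0` (`Real.log x` is the logarithm of `|x|`) -/
noncomputable def L (x : ℝ) : ℝ := Li 3 x - Real.log x * Li 2 x + 1 / 3 * Real.log x ^ 2 * Li 1 x

/-- the three values at `n` -/
noncomputable def triple (n : ℕ) : Fin 3 → ℝ := ![L (1 / n), L (1 - 1 / n), L (1 / (1 - n))]

/-- the four numbers `π³`, `L(1/n)`, `L(1 - 1/n)`, `L(1/(1-n))` -/
noncomputable def four (n : ℕ) : Fin 4 → ℝ := Fin.cons (Real.pi ^ 3) (triple n)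

/-- the linear form in the three values -/
noncomputable def form (β : Fin 3 → ℂ) (κ : ℂ) (n : ℕ) : ℂ := κ + ∑ i, β i * ((triple n i : ℝ) : ℂ)

/-- the relations over `K` are the multiples of the identity for `ζ(3)` -/
def OnlyRelation (K : Submodule ℚ ℂ) (n : ℕ) : Prop :=
  ∀ (β : Fin 3 → ℂ) (κ : ℂ), (∀ i, β i ∈ K) → κ ∈ K → form β κ n = 0 →
    κ + β 2 * ((zeta3 : ℝ) : ℂ) = 0 ∧ β 0 = β 2 ∧ β 1 = β 2

/-- the integral combinations of the `θ_l` with coefficients at most `H` -/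
def Comb {g : ℕ} (θ : Fin g → ℂ) (H : ℝ) : Set ℂ :=
  {r | ∃ a : Fin g → ℤ, (∀ l, |((a l : ℤ) : ℝ)| ≤ H) ∧ r = ∑ l, (a l : ℂ) * θ l}

/-- small forms at the height `H` come from small forms in `1` and `ζ(3)` -/
def Good {g : ℕ} (B : ℕ) (θ : Fin g → ℂ) (n : ℕ) (H : ℝ) : Prop :=
  ∀ (β : Fin 3 → ℂ) (κ : ℂ), (∀ i, β i ∈ Comb θ H) → κ ∈ Comb θ H →
    ‖κ + β 2 * ((zeta3 : ℝ) : ℂ)‖ ≤ H ^ B * ‖form β κ n‖ ∧ ‖β 0 - β 2‖ ≤ H ^ B * ‖form β κ n‖ ∧
      ‖β 1 - β 2‖ ≤ H ^ B * ‖form β κ n‖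

/-- (1) the identity; (2) the criteria for irrationality; (3) the criteria for transcendence; (4) the only relations at almost
all integers; (5) near relations. -/
theorem result :
    (∀ n : ℕ, 3 ≤ n → L (1 / n) + L (1 - 1 / n) + L (1 / (1 - n)) = zeta3) ∧
    ((Irrational (zeta3 / Real.pi ^ 3) ↔ ∃ n : ℕ, 3 ≤ n ∧ LinearIndependent ℚ (four n)) ∧
      (Irrational (zeta3 / Real.pi ^ 3) ↔ ∃ C c : ℝ, 0 < c ∧ ∀ T : ℕ, 1 ≤ T →
        (({n : ℕ | 3 ≤ n ∧ n ≤ T ∧ ¬ LinearIndependent ℚ (four n)}.ncard : ℕ) : ℝ) ≤ C * (T : ℝ) ^ (1 - c))) ∧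
    ((Transcendental ℚ (zeta3 / Real.pi ^ 3) ↔ ∀ K : IntermediateField ℚ ℂ, FiniteDimensional ℚ K →
        ∃ n : ℕ, 3 ≤ n ∧ LinearIndependent K fun i => ((four n i : ℝ) : ℂ)) ∧
      (Transcendental ℚ (zeta3 / Real.pi ^ 3) ↔ ∀ K : IntermediateField ℚ ℂ, FiniteDimensional ℚ K →
        ∃ C c : ℝ, 0 < c ∧ ∀ T : ℕ, 1 ≤ T → (({n : ℕ | 3 ≤ n ∧ n ≤ T ∧
          ¬ LinearIndependent K fun i => ((four n i : ℝ) : ℂ)}.ncard : ℕ) : ℝ) ≤ C * (T : ℝ) ^ (1 - c))) ∧
    (∀ g : ℕ, ∃ C c : ℝ, 0 < c ∧ ∀ θ : Fin g → ℂ, ∀ T : ℕ, 1 ≤ T →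
      (({n : ℕ | 3 ≤ n ∧ n ≤ T ∧ ¬ OnlyRelation (Submodule.span ℚ (Set.range θ)) n}.ncard : ℕ) : ℝ) ≤
        C * (T : ℝ) ^ (1 - c)) ∧
    ∀ g : ℕ, ∃ (B : ℕ) (C c : ℝ), 0 < c ∧ ∀ T : ℕ, 1 ≤ T →
      (∃ H₀ : ℝ, ∀ H₁ : ℝ, H₀ ≤ H₁ → ∀ θ : Fin g → ℂ,
        (({n : ℕ | 3 ≤ n ∧ n ≤ T ∧ ¬ ∀ H : ℝ, H₁ ≤ H → H ≤ H₁ ^ Real.exp ((T : ℝ) ^ c) → Good B θ n H}.ncard : ℕ) : ℝ) ≤
          C * (T : ℝ) ^ (1 - c)) ∧
      ∀ θ : Fin g → ℂ, (({n : ℕ | 3 ≤ n ∧ n ≤ T ∧ ¬ ∀ N₀ : ℕ, ∃ N, N₀ ≤ N ∧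
        (({s : ℕ | s < N ∧ ¬ ∀ H : ℝ, 2 ^ (2 ^ s) ≤ H → H ≤ 2 ^ (2 ^ (s + 1)) → Good B θ n H}.ncard : ℕ) : ℝ) ≤
            (T : ℝ) ^ (-c) * N}.ncard : ℕ) : ℝ) ≤ C * (T : ℝ) ^ (1 - c) := by
  have hz : zeta3 = Pool.Agent.Q189.MV.ze 3 := rfl
  have hL : L = Pool.Agent.Q189.Z3.L3 := rfl
  have ht : triple = Pool.Agent.Q189.Z3.trip := rfl
  have hf : form = Pool.Agent.Q189.MV.F3 := rfl
  have hπ : Real.pi ^ 3 ≠ 0 := pow_ne_zero _ Real.pi_ne_zero
  have hG : ∀ {g : ℕ} (B : ℕ) (θ : Fin g → ℂ) (n : ℕ) (H : ℝ), Good B θ n H ↔ Pool.Agent.Q189.MV.G3 B θ n H :=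
    fun B θ n H => Iff.rfl
  -- independence over a field
  have hind : ∀ (K : IntermediateField ℚ ℂ) (n : ℕ), (LinearIndependent K fun i => ((four n i : ℝ) : ℂ)) ↔
      Pool.Agent.Q189.MV.Ind4 (Subalgebra.toSubmodule K.toSubalgebra) ((Real.pi ^ 3 : ℝ) : ℂ) n := by
    intro K n
    rw [Fintype.linearIndependent_iff]
    constructor
    · intro h α β hα hβ h0
      have h1 := h (Fin.cons ⟨α, hα⟩ fun i => ⟨β i, hβ i⟩) (by
        rw [Fin.sum_univ_succ]
        refine Eq.trans ?_ h0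
        rfl)
      exact ⟨congrArg Subtype.val (h1 0), fun i => congrArg Subtype.val (h1 i.succ)⟩
    · intro h c hc
      have h1 := h (c 0) (fun i => (c i.succ : ℂ)) (c 0).2 (fun i => (c i.succ).2) (by
        rw [Fin.sum_univ_succ] at hc
        refine Eq.trans ?_ hc
        rfl)
      refine fun i => Fin.cases (Subtype.ext h1.1) (fun i => Subtype.ext (h1.2 i)) i
  have hindQ : ∀ n : ℕ, LinearIndependent ℚ (four n) ↔
      Pool.Agent.Q189.MV.Ind4 (Submodule.span ℚ (Set.range fun _ : Fin 1 => (1 : ℂ))) ((Real.pi ^ 3 : ℝ) : ℂ) n := by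
    intro n
    rw [Fintype.linearIndependent_iff]
    constructor
    · intro h α β hα hβ h0
      obtain ⟨a, rfl⟩ := Pool.Agent.Q189.MV.mem_span_one.1 hα
      choose b hb using fun i => Pool.Agent.Q189.MV.mem_span_one.1 (hβ i)
      have h1 := h (Fin.cons a b) (by
        refine Complex.ofReal_injective ?_
        rw [Fin.sum_univ_succ, Complex.ofReal_zero, ← h0]
        show (((a : ℚ) • (Real.pi ^ 3) + ∑ i : Fin 3, (b i : ℚ) • triple n i : ℝ) : ℂ) =
          (a : ℂ) * ((Real.pi ^ 3 : ℝ) : ℂ) + ∑ i, β i * ((triple n i : ℝ) : ℂ)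
        simp only [hb, Rat.smul_def]
        push_cast
        rfl)
      refine ⟨?_, fun i => ?_⟩
      · have h2 : a = 0 := h1 0
        rw [h2, Rat.cast_zero]
      · have h2 : b i = 0 := h1 i.succ
        rw [hb, h2, Rat.cast_zero]
    · intro h c hc
      have h1 := h ((c 0 : ℚ) : ℂ) (fun i => ((c i.succ : ℚ) : ℂ)) (Pool.Agent.Q189.MV.mem_span_one.2 ⟨_, rfl⟩)
        (fun i => Pool.Agent.Q189.MV.mem_span_one.2 ⟨_, rfl⟩) (by
        rw [Fin.sum_univ_succ] at hc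
        have h2 := congrArg (fun r : ℝ => (r : ℂ)) hc
        refine Eq.trans ?_ h2
        show ((c 0 : ℚ) : ℂ) * ((Real.pi ^ 3 : ℝ) : ℂ) + ∑ i : Fin 3, ((c i.succ : ℚ) : ℂ) * ((triple n i : ℝ) : ℂ) =
          (((c 0 : ℚ) • (Real.pi ^ 3) + ∑ i : Fin 3, (c i.succ : ℚ) • triple n i : ℝ) : ℂ)
        simp only [Rat.smul_def]
        push_cast
        rfl)
      refine fun i => Fin.cases ?_ (fun i => ?_) i
      · exact_mod_cast h1.1
      · exact_mod_cast h1.2 i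
  refine ⟨fun n hn => ?_, ?_, ?_, fun g => ?_, fun g => ?_⟩
  · have h := Pool.Agent.Q189.Z3.trip_sum hn
    rw [Pool.Agent.Q189.MV.Li_ze] at h
    exact h
  · -- irrationality
    have h1 : Irrational (zeta3 / Real.pi ^ 3) ↔
        Pool.Agent.Q189.MV.Ind2 (Submodule.span ℚ (Set.range fun _ : Fin 1 => (1 : ℂ))) ((Real.pi ^ 3 : ℝ) : ℂ) := by
      have hπ' : ((Real.pi ^ 3 : ℝ) : ℂ) ≠ 0 := Complex.ofReal_ne_zero.2 hπ
      constructor
      · intro h α hα β hβ h0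
        obtain ⟨a, rfl⟩ := Pool.Agent.Q189.MV.mem_span_one.1 hα
        obtain ⟨b, rfl⟩ := Pool.Agent.Q189.MV.mem_span_one.1 hβ
        have h2 : (a : ℝ) * Real.pi ^ 3 + (b : ℝ) * zeta3 = 0 := by
          refine Complex.ofReal_injective ?_
          push_cast
          push_cast at h0
          exact h0
        have hb : b = 0 := by
          by_contra hne
          refine h ⟨-(a / b), ?_⟩
          have hb' : (b : ℝ) ≠ 0 := by exact_mod_cast hne
          push_cast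
          rw [eq_div_iff hπ]
          field_simp
          linarith
        rw [hb] at h2
        have h3 : (a : ℝ) * Real.pi ^ 3 = 0 := by rw [← h2]; simp
        have ha : (a : ℝ) = 0 := (mul_eq_zero.1 h3).resolve_right hπ
        refine ⟨by exact_mod_cast ha, by rw [hb, Rat.cast_zero]⟩
      · rintro h ⟨q, hq⟩
        have h2 := h (-(q : ℂ)) (Submodule.neg_mem _ (Pool.Agent.Q189.MV.mem_span_one.2 ⟨q, rfl⟩)) 1
          (Pool.Agent.Q189.MV.mem_span_one.2 ⟨1, by simp⟩) (by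
          have h3 : zeta3 = (q : ℝ) * Real.pi ^ 3 := by
            rw [hq]
            field_simp
          rw [← hz, h3]
          push_cast
          ring)
        exact one_ne_zero h2.2
    have hfg : (Submodule.span ℚ (Set.range fun _ : Fin 1 => (1 : ℂ))).FG :=
      Submodule.fg_span (Set.finite_range _)
    obtain ⟨e1, e2⟩ := Pool.Agent.Q189.MV.crit4 hfg ((Real.pi ^ 3 : ℝ) : ℂ)
    simp only [hindQ]
    exact ⟨h1.trans e1, h1.trans e2⟩
  · -- transcendence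
    have hinv : ∀ K : IntermediateField ℚ ℂ, ∀ x ∈ K.toSubalgebra, x⁻¹ ∈ K.toSubalgebra := fun K x hx => K.inv_mem hx
    have h1 : Transcendental ℚ (zeta3 / Real.pi ^ 3) ↔ ∀ K : IntermediateField ℚ ℂ, FiniteDimensional ℚ K →
        Pool.Agent.Q189.MV.Ind2 (Subalgebra.toSubmodule K.toSubalgebra) ((Real.pi ^ 3 : ℝ) : ℂ) := by
      constructor
      · intro h K hK
        rw [Pool.Agent.Q189.MV.Ind2_field (hinv K) hπ]
        intro hmem
        apply h
        have h2 : IsAlgebraic ℚ (⟨((Pool.Agent.Q189.MV.ze 3 / Real.pi ^ 3 : ℝ) : ℂ), hmem⟩ : K) :=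
          Algebra.IsAlgebraic.isAlgebraic _
        have h3 : IsAlgebraic ℚ ((Pool.Agent.Q189.MV.ze 3 / Real.pi ^ 3 : ℝ) : ℂ) := h2.algebraMap (A := ℂ)
        exact (isAlgebraic_algebraMap_iff (A := ℂ) (algebraMap ℝ ℂ).injective).1 h3
      · intro h halg
        have h3 : IsAlgebraic ℚ (((zeta3 / Real.pi ^ 3 : ℝ)) : ℂ) := halg.algebraMap (A := ℂ)
        have h4 : FiniteDimensional ℚ (IntermediateField.adjoin ℚ {(((zeta3 / Real.pi ^ 3 : ℝ)) : ℂ)}) :=
          IntermediateField.adjoin.finiteDimensional h3.isIntegral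
        have h5 := h _ h4
        rw [Pool.Agent.Q189.MV.Ind2_field (hinv _) hπ] at h5
        exact h5 (IntermediateField.mem_adjoin_simple_self ℚ (((zeta3 / Real.pi ^ 3 : ℝ)) : ℂ))
    have hfg : ∀ K : IntermediateField ℚ ℂ, FiniteDimensional ℚ K → (Subalgebra.toSubmodule K.toSubalgebra).FG := by
      intro K hK
      have h1 : FiniteDimensional ℚ (Subalgebra.toSubmodule K.toSubalgebra) := hK
      exact (Submodule.fg_iff_finiteDimensional _).2 h1
    simp only [hind]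
    constructor
    · rw [h1]
      refine forall_congr' fun K => forall_congr' fun hK => ?_
      exact (Pool.Agent.Q189.MV.crit4 (hfg K hK) ((Real.pi ^ 3 : ℝ) : ℂ)).1
    · rw [h1]
      refine forall_congr' fun K => forall_congr' fun hK => ?_
      exact (Pool.Agent.Q189.MV.crit4 (hfg K hK) ((Real.pi ^ 3 : ℝ) : ℂ)).2
  · exact Pool.Agent.Q189.MV.few_E3 g
  · obtain ⟨B, C, c, hc, h⟩ := Pool.Agent.Q189.MV.main3 g
    refine ⟨B, C, c, hc, fun T hT => ?_⟩
    obtain ⟨⟨H₀, h1⟩, h2⟩ := h T hT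
    refine ⟨⟨H₀, fun H₁ hH₁ θ => ?_⟩, fun θ => ?_⟩
    · refine le_trans (Nat.cast_le.2 (Set.ncard_le_ncard ?_ ((Set.finite_le_nat T).subset fun n hn => hn.2.1))) (h1 H₁ hH₁ θ)
      rintro n ⟨e1, e2, e3⟩
      exact ⟨by omega, e2, fun e4 => e3 fun H ha hb => e4 H ha hb e1⟩
    · refine le_trans (Nat.cast_le.2 (Set.ncard_le_ncard ?_ ((Set.finite_le_nat T).subset fun n hn => hn.2.1))) (h2 θ)
      rintro n ⟨e1, e2, e3⟩
      refine ⟨by omega, e2, fun e4 => e3 fun N₀ => ?_⟩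
      obtain ⟨N, hN, hbad⟩ := e4 N₀
      refine ⟨N, hN, le_trans (Nat.cast_le.2 (Set.ncard_le_ncard ?_ ((Set.finite_lt_nat N).subset fun j hj => hj.1))) hbad⟩
      rintro j ⟨hj, hj'⟩
      exact ⟨hj, fun hcon => hj' fun H ha hb => hcon H ha hb e1⟩

end Pool.Agent.Q138.AI.Re47f08
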