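import Pool.Agent.Q189.MV.MT2

/-!
# The period conjecture for mixed Tate motives over the integers and paths from `0` to `1/n`

`Transfer n N` says: let `per : P → ℂ` be any period map (a homomorphism of `ℚ`-algebras, for instance on the motivic periods of
mixed Tate motives over `ℤ[1/(n(n-1))]` or over `ℚ`), let `F 0 ⊆ F 1 ⊆ … ⊆ P` be subspaces such that `per (F j)` is in the span of
the numbers `(2 π i)^a ζ(s)` of weight at most `j` (for instance the effective motivic periods of mixed Tate motives over `ℤ` of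
weight at most `j`), and let `lam`, `l t` be elements of `P` with periods `log (1/n)` and `Li_t(1/n)` (for instance the motivic
multiple polylogarithms, motivic periods of the torsor of paths from `0` to `1/n` in the projective line minus three points).
If `per` is injective on `F N`, then `per` is injective on the span of the products `f lam^a l t`, `f ∈ F j`, `j + a + |t| ≤ N`.

* For each `N`, `Transfer n N` is true for almost all integers `n`.

So the period conjecture for mixed Tate motives over `ℤ` implies the period conjecture for these path torsors, in weights at most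
`N` and for almost all `n`.

Let `Wn n N` be the span of the products `(2 π i)^a Li_s(1 - 1/n) Li_t(1/n)` of weight at most `N`, `S d N = d_0 + … + d_N` with
Zagier's numbers, `rr d 0 = 1`, `rr d N = S d N + S d (N - 1)` for `N ≥ 1` and `total N = ∑_{k ≤ N} 2^k rr d (N - k)`; then
`total N = (24/5) 2^N - (13 d_N + 22 d_{N+1} + 16 d_{N+2}) / 5 + 2`.

* The period map of mixed Tate motives over `ℤ` is injective if and only if for each `N` there is ONE `n ≥ 2` with
  `dim Wn n N = total N`, and if and only if for all `ε > 0` there are infinitely many `N` with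
  `dim Wn n N ≥ (24/5 - ε) 2^N` for some `n ≥ 2`.
-/

set_option autoImplicit false

open Module

namespace Pool.Agent.Q138.AI.Re54452

open Pool.Agent.H447R2.MZ (Zs)
open Pool.Agent.Q187.ZD (tot S IsZagier IsMotivic)
open Pool.Agent.Q187.ZD.KZ (T)
open Pool.Agent.Q187.ZD.MT (IsFull)

/-- the truncated sums `∑_{N ≥ n_1 > … > n_k ≥ 1} 1 / (n_1^{s_1} ⋯ n_k^{s_k})` -/
noncomputable def truncated : List ℕ → ℕ → ℝ
  | [], _ => 1
  | a :: s, N => ∑ n ∈ Finset.range N, 1 / ((n : ℝ) + 1) ^ a * truncated s n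

/-- the multiple polylogarithm `Li_s(x) = ∑_{n_1 > … > n_k ≥ 1} x^{n_1} / (n_1^{s_1} ⋯ n_k^{s_k})` -/
noncomputable def Li : List ℕ → ℝ → ℝ
  | [], _ => 1
  | a :: s, x => ∑' n : ℕ, x ^ (n + 1) / ((n : ℝ) + 1) ^ a * truncated s n

/-- the span of the products of powers of `2 π i` and values at `1 - 1/n` and `1/n` of total weight at most `N` -/
noncomputable def Wn (n N : ℕ) : Submodule ℚ ℂ :=
  Submodule.span ℚ {r : ℂ | ∃ (a : ℕ) (s t : List ℕ), (∀ b ∈ s, 1 ≤ b) ∧ (∀ b ∈ t, 1 ≤ b) ∧ a + s.sum + t.sum ≤ N ∧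
    r = (2 * Real.pi * Complex.I) ^ a * ((Li s (1 - 1 / n) * Li t (1 / n) : ℝ) : ℂ)}

/-- the span of the products of elements of `F j`, powers of `lam` and the `l t` of total weight at most `N` -/
def Products {P : Type} [CommRing P] [Algebra ℚ P] (F : ℕ → Submodule ℚ P) (lam : P) (l : List ℕ → P) (N : ℕ) : Submodule ℚ P :=
  Submodule.span ℚ {y | ∃ (j a : ℕ) (f : P) (t : List ℕ), f ∈ F j ∧ (∀ b ∈ t, 1 ≤ b) ∧ j + a + t.sum ≤ N ∧ y = f * (lam ^ a * l t)}

/-- injectivity of the period map on the periods of weight at most `N` of mixed Tate motives over `ℤ` implies injectivity on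
their products with the periods of the paths from `0` to `1/n` -/
def Transfer (n N : ℕ) : Prop :=
  ∀ (P : Type) [CommRing P] [Algebra ℚ P] (per : P →ₐ[ℚ] ℂ) (F : ℕ → Submodule ℚ P) (lam : P) (l : List ℕ → P),
    Monotone F → (∀ j ≤ N, ∀ f ∈ F j, per f ∈ T j) → per lam = ((Real.log (1 / n) : ℝ) : ℂ) →
    (∀ t : List ℕ, (∀ b ∈ t, 1 ≤ b) → per (l t) = ((Li t (1 / n) : ℝ) : ℂ)) →
    (∀ y ∈ F N, per y = 0 → y = 0) → ∀ y ∈ Products F lam l N, per y = 0 → y = 0

/-- the dimension of the effective motivic periods of weight at most `N` -/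
def rr (d : ℕ → ℕ) : ℕ → ℕ
  | 0 => S d 0
  | N + 1 => S d (N + 1) + S d N

/-- `∑_{k ≤ N} 2^k rr d (N - k)` -/
def total (d : ℕ → ℕ) (N : ℕ) : ℕ := ∑ k ∈ Finset.range (N + 1), 2 ^ k * rr d (N - k)

theorem result :
    (∀ N : ℕ, ∃ C c : ℝ, 0 < c ∧ ∀ B : ℕ, 1 ≤ B →
      (({n : ℕ | 3 ≤ n ∧ n ≤ B ∧ ¬ Transfer n N}.ncard : ℕ) : ℝ) ≤ C * (B : ℝ) ^ (1 - c)) ∧
    (∀ d : ℕ → ℕ, IsZagier d → ∀ N, 5 * total d N + 13 * d N + 22 * d (N + 1) + 16 * d (N + 2) = 24 * 2 ^ N + 10) ∧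
    (∀ (P H : Type) [CommRing P] [Algebra ℚ P] [CommRing H] [Algebra ℚ H]
      (ι : H →ₐ[ℚ] P) (L : P) (per : P →ₐ[ℚ] ℂ) (per' : H →ₐ[ℚ] ℝ) (gr : ℕ → Submodule ℚ H) (d : ℕ → ℕ),
      IsFull ι L per per' → IsZagier d → IsMotivic d Zs gr per' → (∀ x : H, ∃ N, x ∈ tot gr N) →
      (Function.Injective per ↔ ∀ N : ℕ, ∃ n : ℕ, 2 ≤ n ∧ finrank ℚ (Wn n N) = total d N) ∧
      (Function.Injective per ↔ ∀ ε : ℝ, 0 < ε → ∀ N₀ : ℕ, ∃ N n : ℕ, N₀ ≤ N ∧ 2 ≤ n ∧
        (24 / 5 - ε) * 2 ^ N ≤ finrank ℚ (Wn n N))) := by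
  have ht : truncated = Pool.Agent.Q189.MV.trunc := by
    funext s
    induction s with
    | nil => rfl
    | cons a s ih =>
      funext N
      show ∑ n ∈ Finset.range N, 1 / ((n : ℝ) + 1) ^ a * truncated s n =
        ∑ n ∈ Finset.range N, 1 / ((n : ℝ) + 1) ^ a * Pool.Agent.Q189.MV.trunc s n
      rw [ih]
  have hL : Li = Pool.Agent.Q189.MV.Lis := by
    funext s x
    rcases s with _ | ⟨a, s⟩
    · rfl
    · show ∑' n : ℕ, x ^ (n + 1) / ((n : ℝ) + 1) ^ a * truncated s n =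
        ∑' n : ℕ, x ^ (n + 1) / ((n : ℝ) + 1) ^ a * Pool.Agent.Q189.MV.trunc s n
      rw [ht]
  have hW : Wn = Pool.Agent.Q189.MV.KZ2.Wn := by
    funext n N
    unfold Wn Pool.Agent.Q189.MV.KZ2.Wn
    rw [hL]
  have hrr : rr = Pool.Agent.Q189.MV.MT2.rr := by
    funext d N
    cases N <;> rfl
  have htot : total = fun d => Pool.Agent.Q189.MV.KZ2.RR (Pool.Agent.Q189.MV.MT2.rr d) := by
    funext d N
    unfold total Pool.Agent.Q189.MV.KZ2.RR
    rw [hrr]
  rw [hW, htot]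
  refine ⟨fun N => ?_, fun d hd N => Pool.Agent.Q189.MV.MT2.RR_value hd N, ?_⟩
  · obtain ⟨C, c, hc, hf⟩ := Pool.Agent.Q189.MV.few_indK N (Pool.Agent.Q189.MV.fg_sup Pool.Agent.Q189.MV.KZ2.T_fd N)
    refine ⟨C, c, hc, fun B hB => ?_⟩
    refine le_trans (Nat.cast_le.2 (Set.ncard_le_ncard ?_ ((Set.finite_le_nat B).subset fun n hn => hn.2.1))) (hf B hB)
    rintro n ⟨h1, h2, h3⟩
    refine ⟨h1, h2, fun h4 => h3 ?_⟩
    intro P _ _ per F lam l hmono hF hlam hl hinj
    rw [hL] at hl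
    exact Pool.Agent.Q189.MV.MT2.transfer (by omega) h4 per F hmono hF lam l hlam hl hinj
  · intro P H _ _ _ _ ι L per per' gr d h hd hm he
    have hT := Pool.Agent.Q189.MV.MT2.tz_le hm
    rw [Pool.Agent.Q189.MV.MT2.inj_iff h hm he]
    refine ⟨⟨fun hN N => (Pool.Agent.Q189.MV.MT2.one_iff' hT N).1 fun k _ => hN k, fun hN N =>
      (Pool.Agent.Q189.MV.MT2.one_iff' hT N).2 (hN N) N le_rfl⟩, Pool.Agent.Q189.MV.MT2.limit' hd hT⟩

end Pool.Agent.Q138.AI.Re54452
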