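import Pool.Agent.Q189.MV.Quad

/-!
# `ζ(2N)/ζ(N)²` and one integer

For integers `N, n ≥ 2` let `I_N(n) = (1/(N-1)!) ∫_{1/n}^1 log(1/v)^(N-1) / (1-v) dv`, the truncation of the integral for `ζ(N)`,
and `q_{N,i}(n) = log(n)^i Li_{N-i}(1/n)`, `0 ≤ i < N`, so that `ζ(N) = I_N(n) + ∑_i q_{N,i}(n) / i!`. If `ζ(2N)/ζ(N)²` is rational,
then for ALL `n ≥ 2` the number `ζ(2N)` is a rational quadratic form in these `N + 1` numbers. We prove the converse, and ONE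
integer is enough:

* `ζ(2N)/ζ(N)²` is irrational if and only if for ONE `n ≥ 2` the number `ζ(2N)` is not in the rational space spanned by the
  products of two of the numbers `I_N(n)`, `q_{N,i}(n)`, `0 ≤ i < N`; in this case this holds for all `n ≤ T` but `C T ^ (1 - c)`;
* hence the question has the answer yes if and only if for every odd `N ≥ 3` there is one such `n`;
* without any hypothesis, for every `D` and every finitely generated rational space `K` of complex numbers, for all `n ≤ T` but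
  `C T ^ (1 - c)` all polynomial relations of degree at most `D` with coefficients in `K` between the numbers `I_N(n)`,
  `q_{N,i}(n)` specialise: they still hold if `I_N(n)` is replaced by `ζ(N)` and all `q_{N,i}(n)` by `0`.
-/

set_option autoImplicit false

namespace Pool.Agent.Q138.AI.Rf1a024

/-- `ζ(s)` -/
noncomputable def zeta (s : ℕ) : ℝ := ∑' n : ℕ, (1 : ℝ) / ((n : ℝ) + 1) ^ s

/-- the polylogarithm `Li_s(x) = ∑ x ^ m / m ^ s` -/
noncomputable def Li (s : ℕ) (x : ℝ) : ℝ := ∑' m : ℕ, x ^ (m + 1) / ((m : ℝ) + 1) ^ s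

/-- the truncated integral -/
noncomputable def I (s n : ℕ) : ℝ :=
  (∫ v in (1 / (n : ℝ))..1, Real.log (1 / v) ^ (s - 1) / (1 - v)) / (Nat.factorial (s - 1) : ℝ)

/-- the products -/
noncomputable def q (s i n : ℕ) : ℝ := Real.log n ^ i * Li (s - i) (1 / n)

/-- the `N + 1` numbers at `n` -/
noncomputable def num (N n : ℕ) : Option (Fin N) → ℝ
  | none => I N n
  | some i => q N i n

/-- the specialised numbers -/
noncomputable def spe (N : ℕ) : Option (Fin N) → ℝ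
  | none => zeta N
  | some _ => 0

/-- the rational quadratic forms in the `N + 1` numbers -/
noncomputable def Quad (N n : ℕ) : Submodule ℚ ℝ := Submodule.span ℚ {r | ∃ o o' : Option (Fin N), r = num N n o * num N n o'}

/-- the polynomial relations of degree at most `D` over `K` specialise -/
def Specialise (K : Submodule ℚ ℂ) (D N n : ℕ) : Prop :=
  ∀ P : MvPolynomial (Option (Fin N)) ℂ, P.totalDegree ≤ D → (∀ e, P.coeff e ∈ K) →
    MvPolynomial.eval (fun o => ((num N n o : ℝ) : ℂ)) P = 0 → MvPolynomial.eval (fun o => ((spe N o : ℝ) : ℂ)) P = 0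

/-- (1) the decomposition; (2) the criterion by one integer and (3) by almost all integers; (4) the question; (5) the
specialisation of polynomial relations at almost all integers. -/
theorem result :
    (∀ N n : ℕ, 2 ≤ N → 2 ≤ n → zeta N = I N n + ∑ i ∈ Finset.range N, 1 / (Nat.factorial i : ℝ) * q N i n) ∧
    (∀ N : ℕ, 2 ≤ N → (Irrational (zeta (2 * N) / zeta N ^ 2) ↔ ∃ n : ℕ, 2 ≤ n ∧ zeta (2 * N) ∉ Quad N n)) ∧
    (∀ N : ℕ, 2 ≤ N → (Irrational (zeta (2 * N) / zeta N ^ 2) ↔ ∃ C c : ℝ, 0 < c ∧ ∀ T : ℕ, 1 ≤ T →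
      (({n : ℕ | 2 ≤ n ∧ n ≤ T ∧ zeta (2 * N) ∈ Quad N n}.ncard : ℕ) : ℝ) ≤ C * (T : ℝ) ^ (1 - c))) ∧
    ((∀ N : ℕ, 1 < N → Odd N → Irrational (zeta (2 * N) / zeta N ^ 2)) ↔
      ∀ N : ℕ, 1 < N → Odd N → ∃ n : ℕ, 2 ≤ n ∧ zeta (2 * N) ∉ Quad N n) ∧
    ∀ N : ℕ, 2 ≤ N → ∀ (D : ℕ) (K : Submodule ℚ ℂ), K.FG → ∃ C c : ℝ, 0 < c ∧ ∀ T : ℕ, 1 ≤ T →
      (({n : ℕ | 2 ≤ n ∧ n ≤ T ∧ ¬ Specialise K D N n}.ncard : ℕ) : ℝ) ≤ C * (T : ℝ) ^ (1 - c) := by
  classical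
  have hz : ∀ s, zeta s = Pool.Agent.Q189.MV.ze s := fun s => rfl
  have hI : ∀ s n : ℕ, 2 ≤ s → 2 ≤ n → I s n = Pool.Agent.Q189.MV.Inn s (1 / n) := by
    intro s n hs hn
    obtain ⟨h1, h2⟩ := Pool.Agent.Q189.MV.inv_pos_lt hn
    exact (Pool.Agent.Q189.MV.Inn_int (N := s) h1 h2 hs).symm
  have hq : ∀ s n i : ℕ, i < s → q s i n = Pool.Agent.Q189.MV.qq n s i := by
    intro s n i hi
    obtain ⟨j, hj⟩ : ∃ j, s - i = j + 1 := ⟨s - i - 1, by omega⟩
    unfold q Pool.Agent.Q189.MV.qq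
    rw [hj]
    rfl
  have hdec : ∀ s n : ℕ, 2 ≤ s → 2 ≤ n → zeta s = I s n + ∑ i ∈ Finset.range s, 1 / (Nat.factorial i : ℝ) * q s i n := by
    intro s n hs hn
    rw [hI s n hs hn, Pool.Agent.Q189.MV.Inn_qq hn hs, hz]
    have e : ∑ i ∈ Finset.range s, 1 / (Nat.factorial i : ℝ) * q s i n =
        ∑ i ∈ Finset.range s, 1 / (Nat.factorial i : ℝ) * Pool.Agent.Q189.MV.qq n s i :=
      Finset.sum_congr rfl fun i hi => by rw [hq s n i (Finset.mem_range.1 hi)]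
    rw [e]
    ring
  have hnum : ∀ N n : ℕ, 2 ≤ N → 2 ≤ n → num N n = Pool.Agent.Q189.MV.vv N n := by
    intro N n hN hn
    funext o
    rcases o with _ | i
    · exact hI N n hN hn
    · exact hq N n i i.2
  have hspe : ∀ N : ℕ, spe N = Pool.Agent.Q189.MV.v0 N := by
    intro N
    funext o
    rcases o with _ | i
    · rfl
    · rfl
  have hQ : ∀ N n : ℕ, 2 ≤ N → 2 ≤ n → Quad N n = Pool.Agent.Q189.MV.P2 N n := by
    intro N n hN hn
    unfold Quad Pool.Agent.Q189.MV.P2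
    rw [hnum N n hN hn]
  have hpos : ∀ N : ℕ, 2 ≤ N → 0 < zeta N := by
    intro N hN
    have hs : Summable fun n : ℕ => (1 : ℝ) / ((n : ℝ) + 1) ^ N := by
      have h := (summable_nat_add_iff 1).2 (Real.summable_one_div_nat_pow.2 (show 1 < N by omega))
      refine h.congr fun n => ?_
      push_cast
      rfl
    exact hs.tsum_pos (fun n => by positivity) 0 (by positivity)
  have hrat : ∀ N : ℕ, 2 ≤ N → (Irrational (zeta (2 * N) / zeta N ^ 2) ↔ ∀ r : ℚ, zeta (2 * N) ≠ r * zeta N ^ 2) := by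
    intro N hN
    have hp := hpos N hN
    rw [irrational_iff_ne_rational]
    constructor
    · intro h r hr
      refine h r.num r.den (by exact_mod_cast r.den_nz) ?_
      rw [hr, mul_div_assoc, div_self (by positivity), mul_one]
      exact_mod_cast (Rat.num_div_den r).symm
    · intro h a b hb hab
      refine h ((a : ℚ) / b) ?_
      push_cast
      rw [← hab, div_mul_cancel₀]
      positivity
  have dir1 : ∀ N : ℕ, 2 ≤ N → Irrational (zeta (2 * N) / zeta N ^ 2) → ∃ C c : ℝ, 0 < c ∧ ∀ T : ℕ, 1 ≤ T →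
      (({n : ℕ | 2 ≤ n ∧ n ≤ T ∧ zeta (2 * N) ∈ Quad N n}.ncard : ℕ) : ℝ) ≤ C * (T : ℝ) ^ (1 - c) := by
    intro N hN h
    obtain ⟨C, c, hc, hf⟩ := Pool.Agent.Q189.MV.few_P2 hN (z := zeta (2 * N)) ((hrat N hN).1 h)
    refine ⟨C, c, hc, fun T hT => ?_⟩
    refine le_trans (Nat.cast_le.2 (Set.ncard_le_ncard ?_ ((Set.finite_le_nat T).subset fun n hn => hn.2.1))) (hf T hT)
    rintro n ⟨h1, h2, h3⟩
    refine ⟨h1, h2, ?_⟩
    rw [← hQ N n hN h1]
    exact h3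
  have dir2 : ∀ N : ℕ, 2 ≤ N → (∃ C c : ℝ, 0 < c ∧ ∀ T : ℕ, 1 ≤ T →
      (({n : ℕ | 2 ≤ n ∧ n ≤ T ∧ zeta (2 * N) ∈ Quad N n}.ncard : ℕ) : ℝ) ≤ C * (T : ℝ) ^ (1 - c)) →
      ∃ n : ℕ, 2 ≤ n ∧ zeta (2 * N) ∉ Quad N n := by
    rintro N hN ⟨C, c, hc, hf⟩
    exact Pool.Agent.Q189.MV.exists_few hc hf
  have dir3 : ∀ N : ℕ, 2 ≤ N → (∃ n : ℕ, 2 ≤ n ∧ zeta (2 * N) ∉ Quad N n) → Irrational (zeta (2 * N) / zeta N ^ 2) := by
    rintro N hN ⟨n, hn, h⟩
    rw [hrat N hN]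
    intro r hr
    refine h ?_
    rw [hQ N n hN hn]
    exact Pool.Agent.Q189.MV.mem_P2 hN hn hr
  have crit : ∀ N : ℕ, 2 ≤ N → (Irrational (zeta (2 * N) / zeta N ^ 2) ↔ ∃ n : ℕ, 2 ≤ n ∧ zeta (2 * N) ∉ Quad N n) :=
    fun N hN => ⟨fun h => dir2 N hN (dir1 N hN h), dir3 N hN⟩
  refine ⟨hdec, crit, fun N hN => ⟨dir1 N hN, fun h => dir3 N hN (dir2 N hN h)⟩, ?_, ?_⟩
  · exact ⟨fun h N hN ho => (crit N hN).1 (h N hN ho), fun h N hN ho => (crit N hN).2 (h N hN ho)⟩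
  · intro N hN D K hK
    obtain ⟨C, c, hc, hf⟩ := Pool.Agent.Q189.MV.few_two (Pool.Agent.Q189.MV.few_spec hN D hK)
    refine ⟨C, c, hc, fun T hT => ?_⟩
    refine le_trans (Nat.cast_le.2 (Set.ncard_le_ncard ?_ ((Set.finite_le_nat T).subset fun n hn => hn.2.1))) (hf T hT)
    rintro n ⟨h1, h2, h3⟩
    refine ⟨h1, h2, fun h4 => h3 fun P hP hPK h0 => ?_⟩
    rw [hspe]
    refine h4 P hP hPK ?_
    rw [← hnum N n hN h1]
    exact h0

end Pool.Agent.Q138.AI.Rf1a024
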